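import Pool.Agent.Helper5.KL.Ops

/-!
# Tables as ternary tries of packed blocks, and the lanewise check (helper5, project KL)
-/

noncomputable section

namespace H5KL

open Finset

/-- a ternary trie of packed blocks; the lowest digit is read first -/
inductive Tr : Type
  | lf (x : ℕ) : Tr
  | nd (a b c : Tr) : Tr

/-- choose by `0`, `1`, other -/
def sel (r A B C : ℕ) : ℕ :=
  Nat.rec (motive := fun _ => ℕ) A (fun r' _ => Nat.rec (motive := fun _ => ℕ) B (fun _ _ => C) r') r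

/-- walk down the trie along the digits of `w`; at the block apply `F` to it and the rest of `w` -/
def navF (F : ℕ → ℕ → ℕ) (T : Tr) : ℕ → ℕ :=
  Tr.rec (motive := fun _ => ℕ → ℕ) (fun x w => F x w)
    (fun _ _ _ iha ihb ihc w => sel (Nat.mod w 3) (iha (Nat.div w 3)) (ihb (Nat.div w 3)) (ihc (Nat.div w 3))) T

/-- the trie has depth exactly `p` -/
def isD (T : Tr) : ℕ → Bool :=
  Tr.rec (motive := fun _ => ℕ → Bool) (fun _ p => Nat.beq p 0)
    (fun _ _ _ iha ihb ihc p => Nat.rec (motive := fun _ => Bool) false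
      (fun p' _ => and (iha p') (and (ihb p') (ihc p'))) p) T

/-- the entry at `w` -/
def ev (M : ℕ) (T : Tr) (w : ℕ) : ℕ := navF (fun x w' => fd x (w' % M)) T w

lemma navF_lf (F : ℕ → ℕ → ℕ) (x w : ℕ) : navF F (.lf x) w = F x w := rfl

lemma navF_nd (F : ℕ → ℕ → ℕ) (a b c : Tr) (w : ℕ) :
    navF F (.nd a b c) w = if w % 3 = 0 then navF F a (w / 3) else if w % 3 = 1 then navF F b (w / 3)
      else navF F c (w / 3) := by
  show sel (w % 3) (navF F a (w / 3)) (navF F b (w / 3)) (navF F c (w / 3)) = _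
  have h : w % 3 < 3 := Nat.mod_lt _ (by norm_num)
  generalize w % 3 = r at h ⊢
  interval_cases r <;> rfl

lemma isD_nd {a b c : Tr} {p : ℕ} (h : isD (.nd a b c) p = true) :
    ∃ p', p = p' + 1 ∧ isD a p' = true ∧ isD b p' = true ∧ isD c p' = true := by
  cases p with
  | zero => exact absurd h (by show ¬ (false = true); decide)
  | succ p' =>
    have h' : (isD a p' && (isD b p' && isD c p')) = true := h
    rw [Bool.and_eq_true, Bool.and_eq_true] at h'
    exact ⟨p', rfl, h'.1, h'.2.1, h'.2.2⟩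

lemma isD_lf {x : ℕ} {p : ℕ} (h : isD (.lf x) p = true) : p = 0 := Nat.eq_of_beq_eq_true h

lemma navF_shift (F : ℕ → ℕ → ℕ) (T : Tr) : ∀ (p w0 y : ℕ) (_ : isD T p = true),
    navF F T (w0 + 3 ^ p * y) = navF (fun x w' => F x (w' + y)) T w0 := by
  induction T with
  | lf x =>
    intro p w0 y h
    rw [isD_lf h, pow_zero, one_mul]; rfl
  | nd a b c iha ihb ihc =>
    intro p w0 y h
    obtain ⟨p', rfl, ha, hb, hc⟩ := isD_nd h
    have e1 : (w0 + 3 ^ (p' + 1) * y) % 3 = w0 % 3 := by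
      rw [pow_succ, mul_comm (3 ^ p') 3, mul_assoc, Nat.add_mul_mod_self_left]
    have e2 : (w0 + 3 ^ (p' + 1) * y) / 3 = w0 / 3 + 3 ^ p' * y := by
      rw [pow_succ, mul_comm (3 ^ p') 3, mul_assoc, Nat.add_mul_div_left _ _ (by norm_num)]
    rw [navF_nd, navF_nd, e1, e2, iha _ _ _ ha, ihb _ _ _ hb, ihc _ _ _ hc]

lemma navF_arr (M : ℕ) (G : ℕ → ℕ → ℕ) (h : ℕ → ℕ → ℕ → ℕ) (hG : ∀ x w', G x w' = arr M (h x w')) (T : Tr) :
    ∀ w0, navF G T w0 = arr M (fun y => navF (fun x w' => h x w' y) T w0) := by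
  induction T with
  | lf x => intro w0; rw [navF_lf, hG]; rfl
  | nd a b c iha ihb ihc =>
    intro w0
    simp only [navF_nd, iha, ihb, ihc]
    split_ifs <;> rfl

lemma navF_lt (F : ℕ → ℕ → ℕ) (K : ℕ) (hF : ∀ x w, F x w < K) (T : Tr) : ∀ w, navF F T w < K := by
  induction T with
  | lf x => intro w; exact hF x w
  | nd a b c iha ihb ihc =>
    intro w; rw [navF_nd]; split_ifs
    exacts [iha _, ihb _, ihc _]

lemma navF_congr {F G : ℕ → ℕ → ℕ} (h : ∀ x w, F x w = G x w) (T : Tr) (w : ℕ) : navF F T w = navF G T w := by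
  have : F = G := by funext x w; exact h x w
  rw [this]

/-- array of the entries at `w0 + 3^p m y`, `m = 2^e` or `3 2^e` -/
def ptr (M m : ℕ) (three : Bool) (e : ℕ) (T : Tr) (w0 : ℕ) : ℕ :=
  navF (fun x w' => cond three (triK M m (dblsK M m e (rotK M (cut M x) (Nat.mod w' M))))
    (dblsK M m e (rotK M (cut M x) (Nat.mod w' M)))) T w0

/-- the multiplier -/
def mul' (three : Bool) (e : ℕ) : ℕ := cond three (Nat.mul 3 (Nat.pow 2 e)) (Nat.pow 2 e)

lemma core_eq (M m : ℕ) (hM : 0 < M) (hm : M ≤ 2 ^ m) (e x w' : ℕ) :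
    dblsK M m e (rotK M (cut M x) (Nat.mod w' M)) = arr M (fun y => fd x ((w' + 2 ^ e * y) % M)) := by
  have h1 : Nat.mod w' M = w' % M := rfl
  rw [h1, cut_eq, rot_eq M _ (fd_lt x) _ (Nat.mod_lt _ hM), dbls_eq M m hm e _ (fun i => fd_lt _ _)]
  refine pk_congr _ _ (fun i _ => ?_)
  congr 1
  rw [← Nat.add_mod, add_comm]

lemma ptr_eq (M m : ℕ) (hM : 0 < M) (hm : M ≤ 2 ^ m) (three : Bool) (e : ℕ) (T : Tr) (p : ℕ)
    (hT : isD T p = true) (w0 : ℕ) :
    ptr M m three e T w0 = arr M (fun y => ev M T (w0 + 3 ^ p * (mul' three e * y))) := by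
  unfold ptr
  rw [navF_arr M _ (fun x w' y => fd x ((w' + mul' three e * y) % M))]
  · unfold arr
    refine pk_congr _ _ (fun y _ => ?_)
    unfold ev
    rw [navF_shift _ T p w0 _ hT]
  · intro x w'
    cases three with
    | false =>
      show dblsK M m e (rotK M (cut M x) (Nat.mod w' M)) = _
      rw [core_eq M m hM hm e x w']
      rfl
    | true =>
      show triK M m (dblsK M m e (rotK M (cut M x) (Nat.mod w' M))) = _
      rw [core_eq M m hM hm e x w', tri_eq M m hm _ (fun i => fd_lt _ _)]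
      refine pk_congr _ _ (fun i _ => ?_)
      congr 1
      have : mul' true e = 3 * 2 ^ e := rfl
      rw [this, Nat.add_mod, Nat.mul_mod, Nat.mod_mod, ← Nat.mul_mod, ← Nat.add_mod]
      congr 2; ring

/-- a pointer: branch (`false`: residue 0, `true`: residue 2), index `mul' three e * u + s`, weight `A` -/
structure Sp where
  tb : Bool
  three : Bool
  e : ℕ
  s : ℕ
  A : ℕ

/-- the branch -/
def Sp.br (sp : Sp) (T0 T2 : Tr) : Tr := cond sp.tb T2 T0

/-- value at `u` -/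
def Sp.ev (M : ℕ) (T0 T2 : Tr) (sp : Sp) (u : ℕ) : ℕ :=
  H5KL.ev M (sp.br T0 T2) (mul' sp.three sp.e * u + sp.s)

/-- array of the values at `u0 + 3^p y` -/
def Sp.val (M m : ℕ) (T0 T2 : Tr) (sp : Sp) (u0 : ℕ) : ℕ :=
  ptr M m sp.three sp.e (sp.br T0 T2) (Nat.add (Nat.mul (mul' sp.three sp.e) u0) sp.s)

/-- weighted sum of the lanes of parity `s` -/
def lsum (M m Q : ℕ) (T0 T2 : Tr) (s u0 : ℕ) (l : List Sp) : ℕ :=
  List.rec (motive := fun _ => ℕ) 0
    (fun sp _ ih => Nat.add (Nat.mul sp.A (half Q s (sp.val M m T0 T2 u0))) ih) l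

/-- the check for one parity -/
def chk1 (M m Q D : ℕ) (T0 T2 : Tr) (own : Sp) (l : List Sp) (s u0 : ℕ) : Bool :=
  and (leL Q (Nat.mul D (half Q s (own.val M m T0 T2 u0))) (lsum M m Q T0 T2 s u0 l))
    (leL Q (ones (Nat.sub Q s)) (half Q s (own.val M m T0 T2 u0)))

/-- the check -/
def chk (M m Q D : ℕ) (T0 T2 : Tr) (own : Sp) (l : List Sp) (u0 : ℕ) : Bool :=
  and (chk1 M m Q D T0 T2 own l 0 u0) (chk1 M m Q D T0 T2 own l 1 u0)

lemma Sp.ev_lt (M : ℕ) (T0 T2 : Tr) (sp : Sp) (u : ℕ) : sp.ev M T0 T2 u < 2 ^ 16 :=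
  navF_lt _ _ (fun _ _ => fd_lt _ _) _ _

lemma Sp.val_eq (M m : ℕ) (hM : 0 < M) (hm : M ≤ 2 ^ m) (T0 T2 : Tr) (p : ℕ) (h0 : isD T0 p = true)
    (h2 : isD T2 p = true) (sp : Sp) (u0 : ℕ) :
    sp.val M m T0 T2 u0 = arr M (fun y => sp.ev M T0 T2 (u0 + 3 ^ p * y)) := by
  unfold Sp.val
  rw [ptr_eq M m hM hm sp.three sp.e _ p (by unfold Sp.br; cases sp.tb <;> assumption)]
  refine pk_congr _ _ (fun y _ => ?_)
  unfold Sp.ev
  congr 1
  show mul' sp.three sp.e * u0 + sp.s + 3 ^ p * (mul' sp.three sp.e * y) = _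
  ring

lemma Sp.ev_per (M : ℕ) (T0 T2 : Tr) (p : ℕ) (h0 : isD T0 p = true) (h2 : isD T2 p = true) (sp : Sp)
    (u0 y : ℕ) : sp.ev M T0 T2 (u0 + 3 ^ p * y) = sp.ev M T0 T2 (u0 + 3 ^ p * (y % M)) := by
  have hd : isD (sp.br T0 T2) p = true := by unfold Sp.br; cases sp.tb <;> assumption
  have key : ∀ y, sp.ev M T0 T2 (u0 + 3 ^ p * y)
      = navF (fun x w' => fd x ((w' + mul' sp.three sp.e * y) % M)) (sp.br T0 T2)
        (mul' sp.three sp.e * u0 + sp.s) := by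
    intro y
    unfold Sp.ev H5KL.ev
    have e : mul' sp.three sp.e * (u0 + 3 ^ p * y) + sp.s
        = mul' sp.three sp.e * u0 + sp.s + 3 ^ p * (mul' sp.three sp.e * y) := by ring
    rw [e, navF_shift _ _ p _ _ hd]
  rw [key, key]
  refine navF_congr (fun x w => ?_) _ _
  congr 1
  have e1 : mul' sp.three sp.e * y % M = mul' sp.three sp.e * (y % M) % M :=
    (Nat.mul_mod_mod _ _ _).symm
  rw [Nat.add_mod, e1, ← Nat.add_mod]

lemma lsum_eq (M m Q : ℕ) (hM : 0 < M) (hm : M ≤ 2 ^ m) (hQ : M ≤ 2 * Q) (T0 T2 : Tr) (p : ℕ)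
    (h0 : isD T0 p = true) (h2 : isD T2 p = true) (s u0 : ℕ) (hs : s ≤ 1) (l : List Sp) :
    lsum M m Q T0 T2 s u0 l = pk 32 Q (fun q => if 2 * q + s < M then
      (l.map (fun sp => sp.A * sp.ev M T0 T2 (u0 + 3 ^ p * (2 * q + s)))).sum else 0) := by
  induction l with
  | nil => simp [lsum, pk]
  | cons sp l ih =>
    show sp.A * (half Q s (sp.val M m T0 T2 u0)) + lsum M m Q T0 T2 s u0 l = _
    rw [ih, Sp.val_eq M m hM hm T0 T2 p h0 h2, half_eq M Q s hs (by omega) hQ _ (fun i => Sp.ev_lt _ _ _ _ _),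
      ← pk_mul, ← pk_add]
    refine pk_congr _ _ (fun q _ => ?_)
    split_ifs
    · rw [List.map_cons, List.sum_cons]
    · rfl

lemma sum_lt (M : ℕ) (T0 T2 : Tr) (u : ℕ) (l : List Sp) :
    (l.map (fun sp => sp.A * sp.ev M T0 T2 u)).sum ≤ (l.map Sp.A).sum * (2 ^ 16 - 1) := by
  induction l with
  | nil => simp
  | cons sp l ih =>
    rw [List.map_cons, List.map_cons, List.sum_cons, List.sum_cons, add_mul]
    have h1 := Sp.ev_lt M T0 T2 sp u
    have h2 : sp.A * sp.ev M T0 T2 u ≤ sp.A * (2 ^ 16 - 1) := Nat.mul_le_mul_left _ (by omega)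
    omega

lemma chk1_sound (M m Q D : ℕ) (hM : 0 < M) (hm : M ≤ 2 ^ m) (hQ : M ≤ 2 * Q) (hQ2 : 2 * Q = M + 1)
    (hD : D ≤ 2 ^ 15)
    (T0 T2 : Tr) (p : ℕ) (h0 : isD T0 p = true) (h2 : isD T2 p = true) (own : Sp) (l : List Sp)
    (hl : (l.map Sp.A).sum ≤ 2 ^ 16) (s u0 : ℕ) (hs : s ≤ 1)
    (h : chk1 M m Q D T0 T2 own l s u0 = true) (q : ℕ) (hq : 2 * q + s < M) :
    D * own.ev M T0 T2 (u0 + 3 ^ p * (2 * q + s))
      ≤ (l.map (fun sp => sp.A * sp.ev M T0 T2 (u0 + 3 ^ p * (2 * q + s)))).sum ∧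
    1 ≤ own.ev M T0 T2 (u0 + 3 ^ p * (2 * q + s)) := by
  unfold chk1 at h
  rw [Bool.and_eq_true] at h
  obtain ⟨ha, hb⟩ := h
  have hhalf : half Q s (own.val M m T0 T2 u0)
      = pk 32 Q (fun q => if 2 * q + s < M then own.ev M T0 T2 (u0 + 3 ^ p * (2 * q + s)) else 0) := by
    rw [Sp.val_eq M m hM hm T0 T2 p h0 h2, half_eq M Q s hs (by omega) hQ _ (fun i => Sp.ev_lt _ _ _ _ _)]
  rw [hhalf] at ha hb
  rw [lsum_eq M m Q hM hm hQ T0 T2 p h0 h2 s u0 hs l] at ha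
  have ha' : leL Q (pk 32 Q (fun q => D * (if 2 * q + s < M then own.ev M T0 T2 (u0 + 3 ^ p * (2 * q + s)) else 0)))
      (pk 32 Q (fun q => if 2 * q + s < M then
      (l.map (fun sp => sp.A * sp.ev M T0 T2 (u0 + 3 ^ p * (2 * q + s)))).sum else 0)) = true := by
    rw [pk_mul]; exact ha
  have hone : ones (Nat.sub Q s) = pk 32 Q (fun q => if q < Q - s then 1 else 0) := by
    rw [pk_ext 32 (Nat.sub_le Q s) (fun _ => 1)]
    exact ones_eq _
  rw [hone] at hb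
  have hqQ : q < Q := by omega
  have r1 := leL_sound Q _ _ Q le_rfl (by
    intro i _
    have h3 : (if 2 * i + s < M then own.ev M T0 T2 (u0 + 3 ^ p * (2 * i + s)) else 0) ≤ 2 ^ 16 - 1 := by
      split_ifs
      · have := Sp.ev_lt M T0 T2 own (u0 + 3 ^ p * (2 * i + s)); omega
      · omega
    calc _ ≤ 2 ^ 15 * (2 ^ 16 - 1) := Nat.mul_le_mul hD h3
      _ < _ := by norm_num) (by
    intro i _
    split_ifs
    · have h4 := sum_lt M T0 T2 (u0 + 3 ^ p * (2 * i + s)) l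
      have h5 : (l.map Sp.A).sum * (2 ^ 16 - 1) ≤ 2 ^ 16 * (2 ^ 16 - 1) := Nat.mul_le_mul_right _ hl
      have h6 : 2 ^ 16 * (2 ^ 16 - 1) < 2 ^ 32 := by norm_num
      omega
    · positivity) ha' q hqQ
  have r2 := leL_sound Q _ _ Q le_rfl (by
    intro i _
    split_ifs
    · norm_num
    · norm_num) (by
    intro i _
    split_ifs
    · have := Sp.ev_lt M T0 T2 own (u0 + 3 ^ p * (2 * i + s)); omega
    · positivity) hb q hqQ
  simp only [hq, if_true] at r1 r2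
  refine ⟨r1, ?_⟩
  have : q < Q - s := by omega
  simpa only [this, if_true] using r2

theorem chk_sound (M m Q D : ℕ) (hM : 0 < M) (hm : M ≤ 2 ^ m) (hQ2 : 2 * Q = M + 1) (hD : D ≤ 2 ^ 15)
    (T0 T2 : Tr) (p : ℕ) (h0 : isD T0 p = true) (h2 : isD T2 p = true) (own : Sp) (l : List Sp)
    (hl : (l.map Sp.A).sum ≤ 2 ^ 16) (u0 : ℕ)
    (h : chk M m Q D T0 T2 own l u0 = true) (y : ℕ) :
    D * own.ev M T0 T2 (u0 + 3 ^ p * y) ≤ (l.map (fun sp => sp.A * sp.ev M T0 T2 (u0 + 3 ^ p * y))).sum ∧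
    1 ≤ own.ev M T0 T2 (u0 + 3 ^ p * y) := by
  have e : (l.map (fun sp => sp.A * sp.ev M T0 T2 (u0 + 3 ^ p * y)))
      = (l.map (fun sp => sp.A * sp.ev M T0 T2 (u0 + 3 ^ p * (y % M)))) := by
    refine List.map_congr_left (fun sp _ => ?_)
    rw [Sp.ev_per M T0 T2 p h0 h2 sp u0 y]
  rw [e, Sp.ev_per M T0 T2 p h0 h2 own u0 y]
  have hy : y % M < M := Nat.mod_lt _ hM
  generalize y % M = y' at hy
  unfold chk at h
  rw [Bool.and_eq_true] at h
  obtain ⟨q, s, hs, rfl⟩ : ∃ q s, s ≤ 1 ∧ y' = 2 * q + s := ⟨y' / 2, y' % 2, by omega, by omega⟩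
  have hs' : s = 0 ∨ s = 1 := by omega
  rcases hs' with rfl | rfl
  · exact chk1_sound M m Q D hM hm (by omega) hQ2 hD T0 T2 p h0 h2 own l hl 0 u0 (by norm_num) h.1 q hy
  · exact chk1_sound M m Q D hM hm (by omega) hQ2 hD T0 T2 p h0 h2 own l hl 1 u0 (by norm_num) h.2 q hy

/-- the check on a range of `u0` -/
def chkR (M m Q D : ℕ) (T0 T2 : Tr) (own : Sp) (l : List Sp) (a n : ℕ) : Bool :=
  Nat.rec (motive := fun _ => Bool) true (fun i ih => and (chk M m Q D T0 T2 own l (Nat.add a i)) ih) n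

lemma chkR_spec (M m Q D : ℕ) (T0 T2 : Tr) (own : Sp) (l : List Sp) (a n : ℕ)
    (h : chkR M m Q D T0 T2 own l a n = true) (u : ℕ) (h1 : a ≤ u) (h2 : u < a + n) :
    chk M m Q D T0 T2 own l u = true := by
  induction n with
  | zero => omega
  | succ n ih =>
    have h' : (chk M m Q D T0 T2 own l (a + n) && chkR M m Q D T0 T2 own l a n) = true := h
    rw [Bool.and_eq_true] at h'
    by_cases hu : u < a + n
    · exact ih h'.2 hu
    · have : u = a + n := by omega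
      rw [this]; exact h'.1

end H5KL
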