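import Pool.Agent.Helper5.KL.Grow

/-!
# The six residue classes modulo 9 (generated), helper5, project KL
-/

noncomputable section

namespace H5KL

lemma F1' {x z z' : ℕ} (h : z' = 4 * z + 1) : fz x z' ≤ fz x z := by subst h; exact F1 x z

lemma F2' {A0 x z z1 b : ℕ} (w : ℕ) (hz : z = 3 * w) (h1 : z1 = 12 * w + 1) (hb : b = 2 * w) (hp : Gd A0 z) :
    fz x z1 + fz x b ≤ fz x z := by subst hz; subst h1; subst hb; exact F2 x w hp.1

lemma F3' {A0 x z z1 b : ℕ} (w : ℕ) (hz : z = 3 * w + 2) (h1 : z1 = 12 * w + 9) (hb : b = 4 * w + 3)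
    (hp : Gd A0 z) : fz x z1 + fz x b ≤ fz x z := by subst hz; subst h1; subst hb; exact F3 x w hp.1

lemma HZ1' {z z' : ℕ} (h : z' = 4 * z + 1) : HZ z' z := by subst h; exact H1 z

lemma HZ2' {z b : ℕ} (w : ℕ) (hz : z = 3 * w) (hb : b = 2 * w) : HZ b z := by
  subst hz; subst hb; exact H2 w

lemma HZ3' {z b : ℕ} (w : ℕ) (hz : z = 3 * w + 2) (hb : b = 4 * w + 3) : HZ b z := by
  subst hz; subst hb; exact H3 w

/-- pointers of the class `0` mod 9 -/
def Ls0 : List Sp := [⟨false, false, 1, 0, 21210⟩, ⟨true, false, 8, 9, 285⟩, ⟨true, false, 7, 4, 528⟩, ⟨true, true, 10, 113, 31⟩]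

/-- pointers of the class `2` mod 9 -/
def Ls2 : List Sp := [⟨false, false, 2, 1, 11461⟩, ⟨false, false, 3, 2, 6193⟩, ⟨true, false, 10, 265, 83⟩, ⟨true, false, 9, 132, 154⟩, ⟨true, true, 12, 3185, 9⟩]

/-- pointers of the class `3` mod 9 -/
def Ls3 : List Sp := [⟨true, false, 1, 0, 21210⟩, ⟨true, false, 6, 23, 977⟩, ⟨true, false, 9, 189, 154⟩, ⟨true, true, 10, 1137, 31⟩]

/-- pointers of the class `5` mod 9 -/
def Ls5 : List Sp := [⟨true, false, 4, 9, 3346⟩, ⟨true, false, 3, 4, 6193⟩, ⟨true, false, 8, 151, 285⟩, ⟨true, false, 11, 1213, 45⟩, ⟨true, true, 12, 7281, 9⟩]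

/-- pointers of the class `6` mod 9 -/
def Ls6 : List Sp := [⟨true, false, 3, 5, 6193⟩, ⟨false, false, 6, 45, 977⟩, ⟨false, false, 7, 90, 528⟩, ⟨true, true, 10, 2161, 31⟩]

/-- pointers of the class `8` mod 9 -/
def Ls8 : List Sp := [⟨true, false, 2, 3, 11461⟩, ⟨true, false, 5, 29, 1808⟩, ⟨false, false, 8, 237, 285⟩, ⟨false, false, 9, 474, 154⟩, ⟨true, true, 12, 11377, 9⟩]

/-- the pointers -/
def Ls (r : ℕ) : List Sp := if r = 0 then Ls0 else if r = 2 then Ls2 else if r = 3 then Ls3 else if r = 5 then Ls5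
  else if r = 6 then Ls6 else Ls8

/-- the pointer to the class itself -/
def own (r : ℕ) : Sp := ⟨Nat.beq (r % 3) 2, true, 0, r / 3, 0⟩

lemma cls0 : Cls (10 ^ 6) 0 Ls0 := by
  have hzz : ∀ u, Gd (10 ^ 6) (9 * u + 0) → HZ (3 * (2 * u + 0) + 0) (9 * u + 0) ∧ HZ (3 * (256 * u + 9) + 2) (9 * u + 0) ∧ HZ (3 * (128 * u + 4) + 2) (9 * u + 0) ∧ HZ (3 * (3072 * u + 113) + 2) (9 * u + 0) := by
    intro u hz
    have z0 : HZ (9 * u + 0) (9 * u + 0) := hits_refl _
    have z1 : HZ (36 * u + 1) (9 * u + 0) := HZ_trans (HZ1' (z := (9 * u + 0)) (by omega)) z0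
    have z2 : HZ (144 * u + 5) (9 * u + 0) := HZ_trans (HZ1' (z := (36 * u + 1)) (by omega)) z1
    have z3 : HZ (576 * u + 21) (9 * u + 0) := HZ_trans (HZ1' (z := (144 * u + 5)) (by omega)) z2
    have z4 : HZ (2304 * u + 85) (9 * u + 0) := HZ_trans (HZ1' (z := (576 * u + 21)) (by omega)) z3
    have z5 : HZ (9216 * u + 341) (9 * u + 0) := HZ_trans (HZ1' (z := (2304 * u + 85)) (by omega)) z4
    have y0 : HZ (3 * (2 * u + 0) + 0) (9 * u + 0) := HZ_trans (HZ2' (z := (9 * u + 0)) (3 * u + 0) (by omega) (by omega)) z0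
    have y2 : HZ (3 * (256 * u + 9) + 2) (9 * u + 0) := HZ_trans (HZ1' (z := (192 * u + 7)) (by omega)) (HZ_trans (HZ3' (z := (144 * u + 5)) (48 * u + 1) (by omega) (by omega)) z2)
    have y3 : HZ (3 * (128 * u + 4) + 2) (9 * u + 0) := HZ_trans (HZ2' (z := (576 * u + 21)) (192 * u + 7) (by omega) (by omega)) z3
    have y5 : HZ (3 * (3072 * u + 113) + 2) (9 * u + 0) := by
      have e : (3 * (3072 * u + 113) + 2) = (9216 * u + 341) := by ring
      rw [e]; exact z5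
    exact ⟨y0, y2, y3, y5⟩
  refine ⟨?_, ?_, ?_, ?_, ?_⟩
  · intro x u hz
    show fz x (3 * (2 * u + 0) + 0) + (fz x (3 * (256 * u + 9) + 2) + (fz x (3 * (128 * u + 4) + 2) + (fz x (3 * (3072 * u + 113) + 2) + 0))) ≤ fz x (9 * u + 0)
    have g0 : Gd (10 ^ 6) (9 * u + 0) := hz
    have g1 : Gd (10 ^ 6) (36 * u + 1) := Gd_of_hits (HZ1' (z := (9 * u + 0)) (by omega)) g0
    have g2 : Gd (10 ^ 6) (144 * u + 5) := Gd_of_hits (HZ1' (z := (36 * u + 1)) (by omega)) g1
    have g3 : Gd (10 ^ 6) (576 * u + 21) := Gd_of_hits (HZ1' (z := (144 * u + 5)) (by omega)) g2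
    have g4 : Gd (10 ^ 6) (2304 * u + 85) := Gd_of_hits (HZ1' (z := (576 * u + 21)) (by omega)) g3
    have g5 : Gd (10 ^ 6) (9216 * u + 341) := Gd_of_hits (HZ1' (z := (2304 * u + 85)) (by omega)) g4
    have f0 : fz x (36 * u + 1) + fz x (3 * (2 * u + 0) + 0) ≤ fz x (9 * u + 0) := F2' (3 * u + 0) (by omega) (by omega) (by omega) g0
    have f1 : fz x (144 * u + 5) ≤ fz x (36 * u + 1) := F1' (by omega)
    have f2 : fz x (576 * u + 21) + fz x (192 * u + 7) ≤ fz x (144 * u + 5) := F3' (48 * u + 1) (by omega) (by omega) (by omega) g2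
    have h2 : fz x (3 * (256 * u + 9) + 2) ≤ fz x (192 * u + 7) := F1' (by omega)
    have f3 : fz x (2304 * u + 85) + fz x (3 * (128 * u + 4) + 2) ≤ fz x (576 * u + 21) := F2' (192 * u + 7) (by omega) (by omega) (by omega) g3
    have f4 : fz x (9216 * u + 341) ≤ fz x (2304 * u + 85) := F1' (by omega)
    have e : (3 * (3072 * u + 113) + 2) = (9216 * u + 341) := by ring
    rw [e]; omega
  · intro u hz sp hsp
    have hb := Gd_ge hz
    have hh := hzz u hz
    simp only [Ls0, List.mem_cons, List.not_mem_nil, or_false] at hsp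
    rcases hsp with rfl | rfl | rfl | rfl
    · refine ⟨hh.1, ?_⟩
      show (3 * (2 * u + 0) + 0) ≠ 9 * u + 0
      omega
    · refine ⟨hh.2.1, ?_⟩
      show (3 * (256 * u + 9) + 2) ≠ 9 * u + 0
      omega
    · refine ⟨hh.2.2.1, ?_⟩
      show (3 * (128 * u + 4) + 2) ≠ 9 * u + 0
      omega
    · refine ⟨hh.2.2.2, ?_⟩
      show (3 * (3072 * u + 113) + 2) ≠ 9 * u + 0
      omega
  · intro u sp hsp
    simp only [Ls0, List.mem_cons, List.not_mem_nil, or_false] at hsp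
    rcases hsp with rfl | rfl | rfl | rfl
    · show 6 * (3 * (3 * (2 * u + 0) + 0) + 1) ≤ 2 * (2 * (3 * (9 * u + 0) + 1) + 1)
      omega
    · show 6 * (3 * (3 * (256 * u + 9) + 2) + 1) ≤ 256 * (2 * (3 * (9 * u + 0) + 1) + 1)
      omega
    · show 6 * (3 * (3 * (128 * u + 4) + 2) + 1) ≤ 128 * (2 * (3 * (9 * u + 0) + 1) + 1)
      omega
    · show 6 * (3 * (3 * (3072 * u + 113) + 2) + 1) ≤ 3072 * (2 * (3 * (9 * u + 0) + 1) + 1)
      omega
  · intro sp hsp
    simp only [Ls0, List.mem_cons, List.not_mem_nil, or_false] at hsp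
    rcases hsp with rfl | rfl | rfl | rfl <;> decide
  · intro sp hsp
    simp only [Ls0, List.mem_cons, List.not_mem_nil, or_false] at hsp
    rcases hsp with rfl | rfl | rfl | rfl <;> decide

lemma cls2 : Cls (10 ^ 6) 2 Ls2 := by
  have hzz : ∀ u, Gd (10 ^ 6) (9 * u + 2) → HZ (3 * (4 * u + 1) + 0) (9 * u + 2) ∧ HZ (3 * (8 * u + 2) + 0) (9 * u + 2) ∧ HZ (3 * (1024 * u + 265) + 2) (9 * u + 2) ∧ HZ (3 * (512 * u + 132) + 2) (9 * u + 2) ∧ HZ (3 * (12288 * u + 3185) + 2) (9 * u + 2) := by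
    intro u hz
    have z0 : HZ (9 * u + 2) (9 * u + 2) := hits_refl _
    have z1 : HZ (36 * u + 9) (9 * u + 2) := HZ_trans (HZ1' (z := (9 * u + 2)) (by omega)) z0
    have z2 : HZ (144 * u + 37) (9 * u + 2) := HZ_trans (HZ1' (z := (36 * u + 9)) (by omega)) z1
    have z3 : HZ (576 * u + 149) (9 * u + 2) := HZ_trans (HZ1' (z := (144 * u + 37)) (by omega)) z2
    have z4 : HZ (2304 * u + 597) (9 * u + 2) := HZ_trans (HZ1' (z := (576 * u + 149)) (by omega)) z3
    have z5 : HZ (9216 * u + 2389) (9 * u + 2) := HZ_trans (HZ1' (z := (2304 * u + 597)) (by omega)) z4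
    have z6 : HZ (36864 * u + 9557) (9 * u + 2) := HZ_trans (HZ1' (z := (9216 * u + 2389)) (by omega)) z5
    have y0 : HZ (3 * (4 * u + 1) + 0) (9 * u + 2) := HZ_trans (HZ3' (z := (9 * u + 2)) (3 * u + 0) (by omega) (by omega)) z0
    have y1 : HZ (3 * (8 * u + 2) + 0) (9 * u + 2) := HZ_trans (HZ2' (z := (36 * u + 9)) (12 * u + 3) (by omega) (by omega)) z1
    have y3 : HZ (3 * (1024 * u + 265) + 2) (9 * u + 2) := HZ_trans (HZ1' (z := (768 * u + 199)) (by omega)) (HZ_trans (HZ3' (z := (576 * u + 149)) (192 * u + 49) (by omega) (by omega)) z3)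
    have y4 : HZ (3 * (512 * u + 132) + 2) (9 * u + 2) := HZ_trans (HZ2' (z := (2304 * u + 597)) (768 * u + 199) (by omega) (by omega)) z4
    have y6 : HZ (3 * (12288 * u + 3185) + 2) (9 * u + 2) := by
      have e : (3 * (12288 * u + 3185) + 2) = (36864 * u + 9557) := by ring
      rw [e]; exact z6
    exact ⟨y0, y1, y3, y4, y6⟩
  refine ⟨?_, ?_, ?_, ?_, ?_⟩
  · intro x u hz
    show fz x (3 * (4 * u + 1) + 0) + (fz x (3 * (8 * u + 2) + 0) + (fz x (3 * (1024 * u + 265) + 2) + (fz x (3 * (512 * u + 132) + 2) + (fz x (3 * (12288 * u + 3185) + 2) + 0)))) ≤ fz x (9 * u + 2)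
    have g0 : Gd (10 ^ 6) (9 * u + 2) := hz
    have g1 : Gd (10 ^ 6) (36 * u + 9) := Gd_of_hits (HZ1' (z := (9 * u + 2)) (by omega)) g0
    have g2 : Gd (10 ^ 6) (144 * u + 37) := Gd_of_hits (HZ1' (z := (36 * u + 9)) (by omega)) g1
    have g3 : Gd (10 ^ 6) (576 * u + 149) := Gd_of_hits (HZ1' (z := (144 * u + 37)) (by omega)) g2
    have g4 : Gd (10 ^ 6) (2304 * u + 597) := Gd_of_hits (HZ1' (z := (576 * u + 149)) (by omega)) g3
    have g5 : Gd (10 ^ 6) (9216 * u + 2389) := Gd_of_hits (HZ1' (z := (2304 * u + 597)) (by omega)) g4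
    have g6 : Gd (10 ^ 6) (36864 * u + 9557) := Gd_of_hits (HZ1' (z := (9216 * u + 2389)) (by omega)) g5
    have f0 : fz x (36 * u + 9) + fz x (3 * (4 * u + 1) + 0) ≤ fz x (9 * u + 2) := F3' (3 * u + 0) (by omega) (by omega) (by omega) g0
    have f1 : fz x (144 * u + 37) + fz x (3 * (8 * u + 2) + 0) ≤ fz x (36 * u + 9) := F2' (12 * u + 3) (by omega) (by omega) (by omega) g1
    have f2 : fz x (576 * u + 149) ≤ fz x (144 * u + 37) := F1' (by omega)
    have f3 : fz x (2304 * u + 597) + fz x (768 * u + 199) ≤ fz x (576 * u + 149) := F3' (192 * u + 49) (by omega) (by omega) (by omega) g3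
    have h3 : fz x (3 * (1024 * u + 265) + 2) ≤ fz x (768 * u + 199) := F1' (by omega)
    have f4 : fz x (9216 * u + 2389) + fz x (3 * (512 * u + 132) + 2) ≤ fz x (2304 * u + 597) := F2' (768 * u + 199) (by omega) (by omega) (by omega) g4
    have f5 : fz x (36864 * u + 9557) ≤ fz x (9216 * u + 2389) := F1' (by omega)
    have e : (3 * (12288 * u + 3185) + 2) = (36864 * u + 9557) := by ring
    rw [e]; omega
  · intro u hz sp hsp
    have hb := Gd_ge hz
    have hh := hzz u hz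
    simp only [Ls2, List.mem_cons, List.not_mem_nil, or_false] at hsp
    rcases hsp with rfl | rfl | rfl | rfl | rfl
    · refine ⟨hh.1, ?_⟩
      show (3 * (4 * u + 1) + 0) ≠ 9 * u + 2
      omega
    · refine ⟨hh.2.1, ?_⟩
      show (3 * (8 * u + 2) + 0) ≠ 9 * u + 2
      omega
    · refine ⟨hh.2.2.1, ?_⟩
      show (3 * (1024 * u + 265) + 2) ≠ 9 * u + 2
      omega
    · refine ⟨hh.2.2.2.1, ?_⟩
      show (3 * (512 * u + 132) + 2) ≠ 9 * u + 2
      omega
    · refine ⟨hh.2.2.2.2, ?_⟩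
      show (3 * (12288 * u + 3185) + 2) ≠ 9 * u + 2
      omega
  · intro u sp hsp
    simp only [Ls2, List.mem_cons, List.not_mem_nil, or_false] at hsp
    rcases hsp with rfl | rfl | rfl | rfl | rfl
    · show 6 * (3 * (3 * (4 * u + 1) + 0) + 1) ≤ 4 * (2 * (3 * (9 * u + 2) + 1) + 1)
      omega
    · show 6 * (3 * (3 * (8 * u + 2) + 0) + 1) ≤ 8 * (2 * (3 * (9 * u + 2) + 1) + 1)
      omega
    · show 6 * (3 * (3 * (1024 * u + 265) + 2) + 1) ≤ 1024 * (2 * (3 * (9 * u + 2) + 1) + 1)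
      omega
    · show 6 * (3 * (3 * (512 * u + 132) + 2) + 1) ≤ 512 * (2 * (3 * (9 * u + 2) + 1) + 1)
      omega
    · show 6 * (3 * (3 * (12288 * u + 3185) + 2) + 1) ≤ 12288 * (2 * (3 * (9 * u + 2) + 1) + 1)
      omega
  · intro sp hsp
    simp only [Ls2, List.mem_cons, List.not_mem_nil, or_false] at hsp
    rcases hsp with rfl | rfl | rfl | rfl | rfl <;> decide
  · intro sp hsp
    simp only [Ls2, List.mem_cons, List.not_mem_nil, or_false] at hsp
    rcases hsp with rfl | rfl | rfl | rfl | rfl <;> decide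

lemma cls3 : Cls (10 ^ 6) 3 Ls3 := by
  have hzz : ∀ u, Gd (10 ^ 6) (9 * u + 3) → HZ (3 * (2 * u + 0) + 2) (9 * u + 3) ∧ HZ (3 * (64 * u + 23) + 2) (9 * u + 3) ∧ HZ (3 * (512 * u + 189) + 2) (9 * u + 3) ∧ HZ (3 * (3072 * u + 1137) + 2) (9 * u + 3) := by
    intro u hz
    have z0 : HZ (9 * u + 3) (9 * u + 3) := hits_refl _
    have z1 : HZ (36 * u + 13) (9 * u + 3) := HZ_trans (HZ1' (z := (9 * u + 3)) (by omega)) z0
    have z2 : HZ (144 * u + 53) (9 * u + 3) := HZ_trans (HZ1' (z := (36 * u + 13)) (by omega)) z1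
    have z3 : HZ (576 * u + 213) (9 * u + 3) := HZ_trans (HZ1' (z := (144 * u + 53)) (by omega)) z2
    have z4 : HZ (2304 * u + 853) (9 * u + 3) := HZ_trans (HZ1' (z := (576 * u + 213)) (by omega)) z3
    have z5 : HZ (9216 * u + 3413) (9 * u + 3) := HZ_trans (HZ1' (z := (2304 * u + 853)) (by omega)) z4
    have y0 : HZ (3 * (2 * u + 0) + 2) (9 * u + 3) := HZ_trans (HZ2' (z := (9 * u + 3)) (3 * u + 1) (by omega) (by omega)) z0
    have y2 : HZ (3 * (64 * u + 23) + 2) (9 * u + 3) := HZ_trans (HZ3' (z := (144 * u + 53)) (48 * u + 17) (by omega) (by omega)) z2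
    have y3 : HZ (3 * (512 * u + 189) + 2) (9 * u + 3) := HZ_trans (HZ1' (z := (384 * u + 142)) (by omega)) (HZ_trans (HZ2' (z := (576 * u + 213)) (192 * u + 71) (by omega) (by omega)) z3)
    have y5 : HZ (3 * (3072 * u + 1137) + 2) (9 * u + 3) := by
      have e : (3 * (3072 * u + 1137) + 2) = (9216 * u + 3413) := by ring
      rw [e]; exact z5
    exact ⟨y0, y2, y3, y5⟩
  refine ⟨?_, ?_, ?_, ?_, ?_⟩
  · intro x u hz
    show fz x (3 * (2 * u + 0) + 2) + (fz x (3 * (64 * u + 23) + 2) + (fz x (3 * (512 * u + 189) + 2) + (fz x (3 * (3072 * u + 1137) + 2) + 0))) ≤ fz x (9 * u + 3)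
    have g0 : Gd (10 ^ 6) (9 * u + 3) := hz
    have g1 : Gd (10 ^ 6) (36 * u + 13) := Gd_of_hits (HZ1' (z := (9 * u + 3)) (by omega)) g0
    have g2 : Gd (10 ^ 6) (144 * u + 53) := Gd_of_hits (HZ1' (z := (36 * u + 13)) (by omega)) g1
    have g3 : Gd (10 ^ 6) (576 * u + 213) := Gd_of_hits (HZ1' (z := (144 * u + 53)) (by omega)) g2
    have g4 : Gd (10 ^ 6) (2304 * u + 853) := Gd_of_hits (HZ1' (z := (576 * u + 213)) (by omega)) g3
    have g5 : Gd (10 ^ 6) (9216 * u + 3413) := Gd_of_hits (HZ1' (z := (2304 * u + 853)) (by omega)) g4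
    have f0 : fz x (36 * u + 13) + fz x (3 * (2 * u + 0) + 2) ≤ fz x (9 * u + 3) := F2' (3 * u + 1) (by omega) (by omega) (by omega) g0
    have f1 : fz x (144 * u + 53) ≤ fz x (36 * u + 13) := F1' (by omega)
    have f2 : fz x (576 * u + 213) + fz x (3 * (64 * u + 23) + 2) ≤ fz x (144 * u + 53) := F3' (48 * u + 17) (by omega) (by omega) (by omega) g2
    have f3 : fz x (2304 * u + 853) + fz x (384 * u + 142) ≤ fz x (576 * u + 213) := F2' (192 * u + 71) (by omega) (by omega) (by omega) g3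
    have h3 : fz x (3 * (512 * u + 189) + 2) ≤ fz x (384 * u + 142) := F1' (by omega)
    have f4 : fz x (9216 * u + 3413) ≤ fz x (2304 * u + 853) := F1' (by omega)
    have e : (3 * (3072 * u + 1137) + 2) = (9216 * u + 3413) := by ring
    rw [e]; omega
  · intro u hz sp hsp
    have hb := Gd_ge hz
    have hh := hzz u hz
    simp only [Ls3, List.mem_cons, List.not_mem_nil, or_false] at hsp
    rcases hsp with rfl | rfl | rfl | rfl
    · refine ⟨hh.1, ?_⟩
      show (3 * (2 * u + 0) + 2) ≠ 9 * u + 3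
      omega
    · refine ⟨hh.2.1, ?_⟩
      show (3 * (64 * u + 23) + 2) ≠ 9 * u + 3
      omega
    · refine ⟨hh.2.2.1, ?_⟩
      show (3 * (512 * u + 189) + 2) ≠ 9 * u + 3
      omega
    · refine ⟨hh.2.2.2, ?_⟩
      show (3 * (3072 * u + 1137) + 2) ≠ 9 * u + 3
      omega
  · intro u sp hsp
    simp only [Ls3, List.mem_cons, List.not_mem_nil, or_false] at hsp
    rcases hsp with rfl | rfl | rfl | rfl
    · show 6 * (3 * (3 * (2 * u + 0) + 2) + 1) ≤ 2 * (2 * (3 * (9 * u + 3) + 1) + 1)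
      omega
    · show 6 * (3 * (3 * (64 * u + 23) + 2) + 1) ≤ 64 * (2 * (3 * (9 * u + 3) + 1) + 1)
      omega
    · show 6 * (3 * (3 * (512 * u + 189) + 2) + 1) ≤ 512 * (2 * (3 * (9 * u + 3) + 1) + 1)
      omega
    · show 6 * (3 * (3 * (3072 * u + 1137) + 2) + 1) ≤ 3072 * (2 * (3 * (9 * u + 3) + 1) + 1)
      omega
  · intro sp hsp
    simp only [Ls3, List.mem_cons, List.not_mem_nil, or_false] at hsp
    rcases hsp with rfl | rfl | rfl | rfl <;> decide
  · intro sp hsp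
    simp only [Ls3, List.mem_cons, List.not_mem_nil, or_false] at hsp
    rcases hsp with rfl | rfl | rfl | rfl <;> decide

lemma cls5 : Cls (10 ^ 6) 5 Ls5 := by
  have hzz : ∀ u, Gd (10 ^ 6) (9 * u + 5) → HZ (3 * (16 * u + 9) + 2) (9 * u + 5) ∧ HZ (3 * (8 * u + 4) + 2) (9 * u + 5) ∧ HZ (3 * (256 * u + 151) + 2) (9 * u + 5) ∧ HZ (3 * (2048 * u + 1213) + 2) (9 * u + 5) ∧ HZ (3 * (12288 * u + 7281) + 2) (9 * u + 5) := by
    intro u hz
    have z0 : HZ (9 * u + 5) (9 * u + 5) := hits_refl _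
    have z1 : HZ (36 * u + 21) (9 * u + 5) := HZ_trans (HZ1' (z := (9 * u + 5)) (by omega)) z0
    have z2 : HZ (144 * u + 85) (9 * u + 5) := HZ_trans (HZ1' (z := (36 * u + 21)) (by omega)) z1
    have z3 : HZ (576 * u + 341) (9 * u + 5) := HZ_trans (HZ1' (z := (144 * u + 85)) (by omega)) z2
    have z4 : HZ (2304 * u + 1365) (9 * u + 5) := HZ_trans (HZ1' (z := (576 * u + 341)) (by omega)) z3
    have z5 : HZ (9216 * u + 5461) (9 * u + 5) := HZ_trans (HZ1' (z := (2304 * u + 1365)) (by omega)) z4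
    have z6 : HZ (36864 * u + 21845) (9 * u + 5) := HZ_trans (HZ1' (z := (9216 * u + 5461)) (by omega)) z5
    have y0 : HZ (3 * (16 * u + 9) + 2) (9 * u + 5) := HZ_trans (HZ1' (z := (12 * u + 7)) (by omega)) (HZ_trans (HZ3' (z := (9 * u + 5)) (3 * u + 1) (by omega) (by omega)) z0)
    have y1 : HZ (3 * (8 * u + 4) + 2) (9 * u + 5) := HZ_trans (HZ2' (z := (36 * u + 21)) (12 * u + 7) (by omega) (by omega)) z1
    have y3 : HZ (3 * (256 * u + 151) + 2) (9 * u + 5) := HZ_trans (HZ3' (z := (576 * u + 341)) (192 * u + 113) (by omega) (by omega)) z3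
    have y4 : HZ (3 * (2048 * u + 1213) + 2) (9 * u + 5) := HZ_trans (HZ1' (z := (1536 * u + 910)) (by omega)) (HZ_trans (HZ2' (z := (2304 * u + 1365)) (768 * u + 455) (by omega) (by omega)) z4)
    have y6 : HZ (3 * (12288 * u + 7281) + 2) (9 * u + 5) := by
      have e : (3 * (12288 * u + 7281) + 2) = (36864 * u + 21845) := by ring
      rw [e]; exact z6
    exact ⟨y0, y1, y3, y4, y6⟩
  refine ⟨?_, ?_, ?_, ?_, ?_⟩
  · intro x u hz
    show fz x (3 * (16 * u + 9) + 2) + (fz x (3 * (8 * u + 4) + 2) + (fz x (3 * (256 * u + 151) + 2) + (fz x (3 * (2048 * u + 1213) + 2) + (fz x (3 * (12288 * u + 7281) + 2) + 0)))) ≤ fz x (9 * u + 5)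
    have g0 : Gd (10 ^ 6) (9 * u + 5) := hz
    have g1 : Gd (10 ^ 6) (36 * u + 21) := Gd_of_hits (HZ1' (z := (9 * u + 5)) (by omega)) g0
    have g2 : Gd (10 ^ 6) (144 * u + 85) := Gd_of_hits (HZ1' (z := (36 * u + 21)) (by omega)) g1
    have g3 : Gd (10 ^ 6) (576 * u + 341) := Gd_of_hits (HZ1' (z := (144 * u + 85)) (by omega)) g2
    have g4 : Gd (10 ^ 6) (2304 * u + 1365) := Gd_of_hits (HZ1' (z := (576 * u + 341)) (by omega)) g3
    have g5 : Gd (10 ^ 6) (9216 * u + 5461) := Gd_of_hits (HZ1' (z := (2304 * u + 1365)) (by omega)) g4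
    have g6 : Gd (10 ^ 6) (36864 * u + 21845) := Gd_of_hits (HZ1' (z := (9216 * u + 5461)) (by omega)) g5
    have f0 : fz x (36 * u + 21) + fz x (12 * u + 7) ≤ fz x (9 * u + 5) := F3' (3 * u + 1) (by omega) (by omega) (by omega) g0
    have h0 : fz x (3 * (16 * u + 9) + 2) ≤ fz x (12 * u + 7) := F1' (by omega)
    have f1 : fz x (144 * u + 85) + fz x (3 * (8 * u + 4) + 2) ≤ fz x (36 * u + 21) := F2' (12 * u + 7) (by omega) (by omega) (by omega) g1
    have f2 : fz x (576 * u + 341) ≤ fz x (144 * u + 85) := F1' (by omega)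
    have f3 : fz x (2304 * u + 1365) + fz x (3 * (256 * u + 151) + 2) ≤ fz x (576 * u + 341) := F3' (192 * u + 113) (by omega) (by omega) (by omega) g3
    have f4 : fz x (9216 * u + 5461) + fz x (1536 * u + 910) ≤ fz x (2304 * u + 1365) := F2' (768 * u + 455) (by omega) (by omega) (by omega) g4
    have h4 : fz x (3 * (2048 * u + 1213) + 2) ≤ fz x (1536 * u + 910) := F1' (by omega)
    have f5 : fz x (36864 * u + 21845) ≤ fz x (9216 * u + 5461) := F1' (by omega)
    have e : (3 * (12288 * u + 7281) + 2) = (36864 * u + 21845) := by ring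
    rw [e]; omega
  · intro u hz sp hsp
    have hb := Gd_ge hz
    have hh := hzz u hz
    simp only [Ls5, List.mem_cons, List.not_mem_nil, or_false] at hsp
    rcases hsp with rfl | rfl | rfl | rfl | rfl
    · refine ⟨hh.1, ?_⟩
      show (3 * (16 * u + 9) + 2) ≠ 9 * u + 5
      omega
    · refine ⟨hh.2.1, ?_⟩
      show (3 * (8 * u + 4) + 2) ≠ 9 * u + 5
      omega
    · refine ⟨hh.2.2.1, ?_⟩
      show (3 * (256 * u + 151) + 2) ≠ 9 * u + 5
      omega
    · refine ⟨hh.2.2.2.1, ?_⟩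
      show (3 * (2048 * u + 1213) + 2) ≠ 9 * u + 5
      omega
    · refine ⟨hh.2.2.2.2, ?_⟩
      show (3 * (12288 * u + 7281) + 2) ≠ 9 * u + 5
      omega
  · intro u sp hsp
    simp only [Ls5, List.mem_cons, List.not_mem_nil, or_false] at hsp
    rcases hsp with rfl | rfl | rfl | rfl | rfl
    · show 6 * (3 * (3 * (16 * u + 9) + 2) + 1) ≤ 16 * (2 * (3 * (9 * u + 5) + 1) + 1)
      omega
    · show 6 * (3 * (3 * (8 * u + 4) + 2) + 1) ≤ 8 * (2 * (3 * (9 * u + 5) + 1) + 1)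
      omega
    · show 6 * (3 * (3 * (256 * u + 151) + 2) + 1) ≤ 256 * (2 * (3 * (9 * u + 5) + 1) + 1)
      omega
    · show 6 * (3 * (3 * (2048 * u + 1213) + 2) + 1) ≤ 2048 * (2 * (3 * (9 * u + 5) + 1) + 1)
      omega
    · show 6 * (3 * (3 * (12288 * u + 7281) + 2) + 1) ≤ 12288 * (2 * (3 * (9 * u + 5) + 1) + 1)
      omega
  · intro sp hsp
    simp only [Ls5, List.mem_cons, List.not_mem_nil, or_false] at hsp
    rcases hsp with rfl | rfl | rfl | rfl | rfl <;> decide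
  · intro sp hsp
    simp only [Ls5, List.mem_cons, List.not_mem_nil, or_false] at hsp
    rcases hsp with rfl | rfl | rfl | rfl | rfl <;> decide

lemma cls6 : Cls (10 ^ 6) 6 Ls6 := by
  have hzz : ∀ u, Gd (10 ^ 6) (9 * u + 6) → HZ (3 * (8 * u + 5) + 2) (9 * u + 6) ∧ HZ (3 * (64 * u + 45) + 0) (9 * u + 6) ∧ HZ (3 * (128 * u + 90) + 0) (9 * u + 6) ∧ HZ (3 * (3072 * u + 2161) + 2) (9 * u + 6) := by
    intro u hz
    have z0 : HZ (9 * u + 6) (9 * u + 6) := hits_refl _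
    have z1 : HZ (36 * u + 25) (9 * u + 6) := HZ_trans (HZ1' (z := (9 * u + 6)) (by omega)) z0
    have z2 : HZ (144 * u + 101) (9 * u + 6) := HZ_trans (HZ1' (z := (36 * u + 25)) (by omega)) z1
    have z3 : HZ (576 * u + 405) (9 * u + 6) := HZ_trans (HZ1' (z := (144 * u + 101)) (by omega)) z2
    have z4 : HZ (2304 * u + 1621) (9 * u + 6) := HZ_trans (HZ1' (z := (576 * u + 405)) (by omega)) z3
    have z5 : HZ (9216 * u + 6485) (9 * u + 6) := HZ_trans (HZ1' (z := (2304 * u + 1621)) (by omega)) z4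
    have y0 : HZ (3 * (8 * u + 5) + 2) (9 * u + 6) := HZ_trans (HZ1' (z := (6 * u + 4)) (by omega)) (HZ_trans (HZ2' (z := (9 * u + 6)) (3 * u + 2) (by omega) (by omega)) z0)
    have y2 : HZ (3 * (64 * u + 45) + 0) (9 * u + 6) := HZ_trans (HZ3' (z := (144 * u + 101)) (48 * u + 33) (by omega) (by omega)) z2
    have y3 : HZ (3 * (128 * u + 90) + 0) (9 * u + 6) := HZ_trans (HZ2' (z := (576 * u + 405)) (192 * u + 135) (by omega) (by omega)) z3
    have y5 : HZ (3 * (3072 * u + 2161) + 2) (9 * u + 6) := by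
      have e : (3 * (3072 * u + 2161) + 2) = (9216 * u + 6485) := by ring
      rw [e]; exact z5
    exact ⟨y0, y2, y3, y5⟩
  refine ⟨?_, ?_, ?_, ?_, ?_⟩
  · intro x u hz
    show fz x (3 * (8 * u + 5) + 2) + (fz x (3 * (64 * u + 45) + 0) + (fz x (3 * (128 * u + 90) + 0) + (fz x (3 * (3072 * u + 2161) + 2) + 0))) ≤ fz x (9 * u + 6)
    have g0 : Gd (10 ^ 6) (9 * u + 6) := hz
    have g1 : Gd (10 ^ 6) (36 * u + 25) := Gd_of_hits (HZ1' (z := (9 * u + 6)) (by omega)) g0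
    have g2 : Gd (10 ^ 6) (144 * u + 101) := Gd_of_hits (HZ1' (z := (36 * u + 25)) (by omega)) g1
    have g3 : Gd (10 ^ 6) (576 * u + 405) := Gd_of_hits (HZ1' (z := (144 * u + 101)) (by omega)) g2
    have g4 : Gd (10 ^ 6) (2304 * u + 1621) := Gd_of_hits (HZ1' (z := (576 * u + 405)) (by omega)) g3
    have g5 : Gd (10 ^ 6) (9216 * u + 6485) := Gd_of_hits (HZ1' (z := (2304 * u + 1621)) (by omega)) g4
    have f0 : fz x (36 * u + 25) + fz x (6 * u + 4) ≤ fz x (9 * u + 6) := F2' (3 * u + 2) (by omega) (by omega) (by omega) g0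
    have h0 : fz x (3 * (8 * u + 5) + 2) ≤ fz x (6 * u + 4) := F1' (by omega)
    have f1 : fz x (144 * u + 101) ≤ fz x (36 * u + 25) := F1' (by omega)
    have f2 : fz x (576 * u + 405) + fz x (3 * (64 * u + 45) + 0) ≤ fz x (144 * u + 101) := F3' (48 * u + 33) (by omega) (by omega) (by omega) g2
    have f3 : fz x (2304 * u + 1621) + fz x (3 * (128 * u + 90) + 0) ≤ fz x (576 * u + 405) := F2' (192 * u + 135) (by omega) (by omega) (by omega) g3
    have f4 : fz x (9216 * u + 6485) ≤ fz x (2304 * u + 1621) := F1' (by omega)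
    have e : (3 * (3072 * u + 2161) + 2) = (9216 * u + 6485) := by ring
    rw [e]; omega
  · intro u hz sp hsp
    have hb := Gd_ge hz
    have hh := hzz u hz
    simp only [Ls6, List.mem_cons, List.not_mem_nil, or_false] at hsp
    rcases hsp with rfl | rfl | rfl | rfl
    · refine ⟨hh.1, ?_⟩
      show (3 * (8 * u + 5) + 2) ≠ 9 * u + 6
      omega
    · refine ⟨hh.2.1, ?_⟩
      show (3 * (64 * u + 45) + 0) ≠ 9 * u + 6
      omega
    · refine ⟨hh.2.2.1, ?_⟩
      show (3 * (128 * u + 90) + 0) ≠ 9 * u + 6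
      omega
    · refine ⟨hh.2.2.2, ?_⟩
      show (3 * (3072 * u + 2161) + 2) ≠ 9 * u + 6
      omega
  · intro u sp hsp
    simp only [Ls6, List.mem_cons, List.not_mem_nil, or_false] at hsp
    rcases hsp with rfl | rfl | rfl | rfl
    · show 6 * (3 * (3 * (8 * u + 5) + 2) + 1) ≤ 8 * (2 * (3 * (9 * u + 6) + 1) + 1)
      omega
    · show 6 * (3 * (3 * (64 * u + 45) + 0) + 1) ≤ 64 * (2 * (3 * (9 * u + 6) + 1) + 1)
      omega
    · show 6 * (3 * (3 * (128 * u + 90) + 0) + 1) ≤ 128 * (2 * (3 * (9 * u + 6) + 1) + 1)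
      omega
    · show 6 * (3 * (3 * (3072 * u + 2161) + 2) + 1) ≤ 3072 * (2 * (3 * (9 * u + 6) + 1) + 1)
      omega
  · intro sp hsp
    simp only [Ls6, List.mem_cons, List.not_mem_nil, or_false] at hsp
    rcases hsp with rfl | rfl | rfl | rfl <;> decide
  · intro sp hsp
    simp only [Ls6, List.mem_cons, List.not_mem_nil, or_false] at hsp
    rcases hsp with rfl | rfl | rfl | rfl <;> decide

lemma cls8 : Cls (10 ^ 6) 8 Ls8 := by
  have hzz : ∀ u, Gd (10 ^ 6) (9 * u + 8) → HZ (3 * (4 * u + 3) + 2) (9 * u + 8) ∧ HZ (3 * (32 * u + 29) + 2) (9 * u + 8) ∧ HZ (3 * (256 * u + 237) + 0) (9 * u + 8) ∧ HZ (3 * (512 * u + 474) + 0) (9 * u + 8) ∧ HZ (3 * (12288 * u + 11377) + 2) (9 * u + 8) := by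
    intro u hz
    have z0 : HZ (9 * u + 8) (9 * u + 8) := hits_refl _
    have z1 : HZ (36 * u + 33) (9 * u + 8) := HZ_trans (HZ1' (z := (9 * u + 8)) (by omega)) z0
    have z2 : HZ (144 * u + 133) (9 * u + 8) := HZ_trans (HZ1' (z := (36 * u + 33)) (by omega)) z1
    have z3 : HZ (576 * u + 533) (9 * u + 8) := HZ_trans (HZ1' (z := (144 * u + 133)) (by omega)) z2
    have z4 : HZ (2304 * u + 2133) (9 * u + 8) := HZ_trans (HZ1' (z := (576 * u + 533)) (by omega)) z3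
    have z5 : HZ (9216 * u + 8533) (9 * u + 8) := HZ_trans (HZ1' (z := (2304 * u + 2133)) (by omega)) z4
    have z6 : HZ (36864 * u + 34133) (9 * u + 8) := HZ_trans (HZ1' (z := (9216 * u + 8533)) (by omega)) z5
    have y0 : HZ (3 * (4 * u + 3) + 2) (9 * u + 8) := HZ_trans (HZ3' (z := (9 * u + 8)) (3 * u + 2) (by omega) (by omega)) z0
    have y1 : HZ (3 * (32 * u + 29) + 2) (9 * u + 8) := HZ_trans (HZ1' (z := (24 * u + 22)) (by omega)) (HZ_trans (HZ2' (z := (36 * u + 33)) (12 * u + 11) (by omega) (by omega)) z1)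
    have y3 : HZ (3 * (256 * u + 237) + 0) (9 * u + 8) := HZ_trans (HZ3' (z := (576 * u + 533)) (192 * u + 177) (by omega) (by omega)) z3
    have y4 : HZ (3 * (512 * u + 474) + 0) (9 * u + 8) := HZ_trans (HZ2' (z := (2304 * u + 2133)) (768 * u + 711) (by omega) (by omega)) z4
    have y6 : HZ (3 * (12288 * u + 11377) + 2) (9 * u + 8) := by
      have e : (3 * (12288 * u + 11377) + 2) = (36864 * u + 34133) := by ring
      rw [e]; exact z6
    exact ⟨y0, y1, y3, y4, y6⟩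
  refine ⟨?_, ?_, ?_, ?_, ?_⟩
  · intro x u hz
    show fz x (3 * (4 * u + 3) + 2) + (fz x (3 * (32 * u + 29) + 2) + (fz x (3 * (256 * u + 237) + 0) + (fz x (3 * (512 * u + 474) + 0) + (fz x (3 * (12288 * u + 11377) + 2) + 0)))) ≤ fz x (9 * u + 8)
    have g0 : Gd (10 ^ 6) (9 * u + 8) := hz
    have g1 : Gd (10 ^ 6) (36 * u + 33) := Gd_of_hits (HZ1' (z := (9 * u + 8)) (by omega)) g0
    have g2 : Gd (10 ^ 6) (144 * u + 133) := Gd_of_hits (HZ1' (z := (36 * u + 33)) (by omega)) g1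
    have g3 : Gd (10 ^ 6) (576 * u + 533) := Gd_of_hits (HZ1' (z := (144 * u + 133)) (by omega)) g2
    have g4 : Gd (10 ^ 6) (2304 * u + 2133) := Gd_of_hits (HZ1' (z := (576 * u + 533)) (by omega)) g3
    have g5 : Gd (10 ^ 6) (9216 * u + 8533) := Gd_of_hits (HZ1' (z := (2304 * u + 2133)) (by omega)) g4
    have g6 : Gd (10 ^ 6) (36864 * u + 34133) := Gd_of_hits (HZ1' (z := (9216 * u + 8533)) (by omega)) g5
    have f0 : fz x (36 * u + 33) + fz x (3 * (4 * u + 3) + 2) ≤ fz x (9 * u + 8) := F3' (3 * u + 2) (by omega) (by omega) (by omega) g0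
    have f1 : fz x (144 * u + 133) + fz x (24 * u + 22) ≤ fz x (36 * u + 33) := F2' (12 * u + 11) (by omega) (by omega) (by omega) g1
    have h1 : fz x (3 * (32 * u + 29) + 2) ≤ fz x (24 * u + 22) := F1' (by omega)
    have f2 : fz x (576 * u + 533) ≤ fz x (144 * u + 133) := F1' (by omega)
    have f3 : fz x (2304 * u + 2133) + fz x (3 * (256 * u + 237) + 0) ≤ fz x (576 * u + 533) := F3' (192 * u + 177) (by omega) (by omega) (by omega) g3
    have f4 : fz x (9216 * u + 8533) + fz x (3 * (512 * u + 474) + 0) ≤ fz x (2304 * u + 2133) := F2' (768 * u + 711) (by omega) (by omega) (by omega) g4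
    have f5 : fz x (36864 * u + 34133) ≤ fz x (9216 * u + 8533) := F1' (by omega)
    have e : (3 * (12288 * u + 11377) + 2) = (36864 * u + 34133) := by ring
    rw [e]; omega
  · intro u hz sp hsp
    have hb := Gd_ge hz
    have hh := hzz u hz
    simp only [Ls8, List.mem_cons, List.not_mem_nil, or_false] at hsp
    rcases hsp with rfl | rfl | rfl | rfl | rfl
    · refine ⟨hh.1, ?_⟩
      show (3 * (4 * u + 3) + 2) ≠ 9 * u + 8
      omega
    · refine ⟨hh.2.1, ?_⟩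
      show (3 * (32 * u + 29) + 2) ≠ 9 * u + 8
      omega
    · refine ⟨hh.2.2.1, ?_⟩
      show (3 * (256 * u + 237) + 0) ≠ 9 * u + 8
      omega
    · refine ⟨hh.2.2.2.1, ?_⟩
      show (3 * (512 * u + 474) + 0) ≠ 9 * u + 8
      omega
    · refine ⟨hh.2.2.2.2, ?_⟩
      show (3 * (12288 * u + 11377) + 2) ≠ 9 * u + 8
      omega
  · intro u sp hsp
    simp only [Ls8, List.mem_cons, List.not_mem_nil, or_false] at hsp
    rcases hsp with rfl | rfl | rfl | rfl | rfl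
    · show 6 * (3 * (3 * (4 * u + 3) + 2) + 1) ≤ 4 * (2 * (3 * (9 * u + 8) + 1) + 1)
      omega
    · show 6 * (3 * (3 * (32 * u + 29) + 2) + 1) ≤ 32 * (2 * (3 * (9 * u + 8) + 1) + 1)
      omega
    · show 6 * (3 * (3 * (256 * u + 237) + 0) + 1) ≤ 256 * (2 * (3 * (9 * u + 8) + 1) + 1)
      omega
    · show 6 * (3 * (3 * (512 * u + 474) + 0) + 1) ≤ 512 * (2 * (3 * (9 * u + 8) + 1) + 1)
      omega
    · show 6 * (3 * (3 * (12288 * u + 11377) + 2) + 1) ≤ 12288 * (2 * (3 * (9 * u + 8) + 1) + 1)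
      omega
  · intro sp hsp
    simp only [Ls8, List.mem_cons, List.not_mem_nil, or_false] at hsp
    rcases hsp with rfl | rfl | rfl | rfl | rfl <;> decide
  · intro sp hsp
    simp only [Ls8, List.mem_cons, List.not_mem_nil, or_false] at hsp
    rcases hsp with rfl | rfl | rfl | rfl | rfl <;> decide

lemma cls_all : ∀ r, r < 9 → r % 3 ≠ 1 → Cls (10 ^ 6) r (Ls r) := by
  intro r hr hr3
  interval_cases r
  · exact cls0
  · omega
  · exact cls2
  · exact cls3
  · omega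
  · exact cls5
  · exact cls6
  · omega
  · exact cls8

lemma A_sum : ∀ r, r < 9 → r % 3 ≠ 1 → ((Ls r).map Sp.A).sum ≤ 2 ^ 16 := by
  intro r hr hr3
  interval_cases r
  · decide
  · omega
  · decide
  · decide
  · omega
  · decide
  · decide
  · omega
  · decide

end H5KL
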