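import Pool.Agent.Helper5.KL.Simd

/-!
# Compressing every `c`-th lane (helper5, project KL)
-/

namespace H5KL

open Finset

/-- mask of the even super-lanes: `2^m` lanes of width `2ck`, low `k` bits set -/
def mask (c k m : ℕ) : ℕ :=
  Nat.mul (Nat.sub (Nat.pow 2 k) 1)
    (Nat.div (Nat.sub (Nat.pow 2 (Nat.mul (Nat.mul (Nat.mul 2 c) k) (Nat.pow 2 m))) 1)
      (Nat.sub (Nat.pow 2 (Nat.mul (Nat.mul 2 c) k)) 1))

/-- merge neighbouring super-lanes -/
def stage (c k m t : ℕ) : ℕ :=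
  Nat.add (Nat.land t (mask c k m))
    (Nat.shiftRight (Nat.sub t (Nat.land t (mask c k m))) (Nat.mul (Nat.sub c 1) k))

/-- merge `2^m` super-lanes of width `ck` (values below `2^k`) -/
def comp (c : ℕ) (m : ℕ) : ℕ → ℕ → ℕ :=
  Nat.rec (motive := fun _ => ℕ → ℕ → ℕ) (fun _ t => t)
    (fun m ih k t => ih (Nat.mul 2 k) (stage c k m t)) m

/-- lanes `0, c, 2c, ...` (16 bit lanes, `2^m` of them) -/
def mask0 (c m : ℕ) : ℕ :=
  Nat.mul 65535 (Nat.div (Nat.sub (Nat.pow 2 (Nat.mul (Nat.mul 16 c) (Nat.pow 2 m))) 1)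
    (Nat.sub (Nat.pow 2 (Nat.mul 16 c)) 1))

/-- take every `c`-th lane -/
def cmp (c m x : ℕ) : ℕ := comp c m 16 (Nat.land x (mask0 c m))

lemma mask_eq (c k m : ℕ) (hc : 1 ≤ c) (hk : 1 ≤ k) :
    mask c k m = pk (2 * c * k) (2 ^ m) (fun _ => 2 ^ k - 1) := by
  have h : 1 ≤ 2 * c * k := by nlinarith
  rw [pk_const _ _ _ h]
  rfl

lemma mask0_eq (c m : ℕ) (hc : 1 ≤ c) :
    mask0 c m = pk (16 * c) (2 ^ m) (fun _ => 2 ^ 16 - 1) := by
  have h : 1 ≤ 16 * c := by omega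
  rw [pk_const _ _ _ h]
  rfl

/-- pairs of lanes -/
lemma pk_pairs (n Q : ℕ) (v : ℕ → ℕ) :
    pk n (2 * Q) v = pk (2 * n) Q (fun q => v (2 * q) + 2 ^ n * v (2 * q + 1)) := by
  induction Q with
  | zero => simp [pk]
  | succ Q ih =>
    rw [pk_succ, ← ih, show 2 * (Q + 1) = 2 * Q + 1 + 1 by ring, pk_succ, pk_succ]
    have e1 : 2 ^ (n * (2 * Q + 1)) = 2 ^ n * 2 ^ (2 * n * Q) := by
      rw [← pow_add]; congr 1; ring
    have e2 : 2 ^ (n * (2 * Q)) = 2 ^ (2 * n * Q) := by congr 1; ring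
    rw [e1, e2]; ring

lemma pk_add (n N : ℕ) (f g : ℕ → ℕ) : pk n N (fun i => f i + g i) = pk n N f + pk n N g := by
  unfold pk; rw [← sum_add_distrib]; exact sum_congr rfl (fun i _ => by ring)

lemma pk_mul (n N c : ℕ) (f : ℕ → ℕ) : pk n N (fun i => c * f i) = c * pk n N f := by
  unfold pk; rw [mul_sum]; exact sum_congr rfl (fun i _ => by ring)

lemma stage_eq (c k m : ℕ) (hc : 2 ≤ c) (hk : 1 ≤ k) (v : ℕ → ℕ) (hv : ∀ q, v q < 2 ^ k) :
    stage c k m (pk (c * k) (2 ^ (m + 1)) v)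
      = pk (c * (2 * k)) (2 ^ m) (fun q => v (2 * q) + 2 ^ k * v (2 * q + 1)) := by
  have e0 : pk (c * k) (2 ^ (m + 1)) v
      = pk (2 * c * k) (2 ^ m) (fun q => v (2 * q) + 2 ^ (c * k) * v (2 * q + 1)) := by
    rw [pow_succ, mul_comm (2 ^ m) 2, pk_pairs]
    congr 1; ring
  have hkc : 2 ^ k ≤ 2 ^ (c * k) := Nat.pow_le_pow_right (by norm_num) (by nlinarith)
  have hw : ∀ q < 2 ^ m, v (2 * q) + 2 ^ (c * k) * v (2 * q + 1) < 2 ^ (2 * c * k) := by
    intro q _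
    have h1 := hv (2 * q)
    have h2 : v (2 * q + 1) ≤ 2 ^ (c * k) - 1 := by have := hv (2 * q + 1); omega
    have h3 := Nat.mul_le_mul_left (2 ^ (c * k)) h2
    have h4 : 2 ^ (2 * c * k) = 2 ^ (c * k) * (2 ^ (c * k) - 1) + 2 ^ (c * k) := by
      have h5 := Nat.one_le_two_pow (n := c * k)
      have : 2 ^ (2 * c * k) = 2 ^ (c * k) * 2 ^ (c * k) := by rw [← pow_add]; congr 1; ring
      rw [this, ← Nat.mul_succ]; congr 1; omega
    omega
  have hl : (pk (c * k) (2 ^ (m + 1)) v) &&& (mask c k m) = pk (2 * c * k) (2 ^ m) (fun q => v (2 * q)) := by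
    rw [mask_eq c k m (by omega) hk, e0, pk_land _ _ _ (by nlinarith) _ hw]
    refine pk_congr _ _ (fun q _ => ?_)
    have : 2 ^ (c * k) = 2 ^ k * 2 ^ ((c - 1) * k) := by
      rw [← pow_add]; congr 1
      obtain ⟨d, rfl⟩ : ∃ d, c = d + 1 := ⟨c - 1, by omega⟩
      simp; ring
    rw [this, mul_assoc, Nat.add_mul_mod_self_left]
    exact Nat.mod_eq_of_lt (hv _)
  have hs : pk (c * k) (2 ^ (m + 1)) v - pk (2 * c * k) (2 ^ m) (fun q => v (2 * q))
      = 2 ^ ((c - 1) * k) * pk (2 * c * k) (2 ^ m) (fun q => 2 ^ k * v (2 * q + 1)) := by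
    rw [e0, pk_add, pk_mul, pk_mul, ← mul_assoc, ← pow_add]
    have : (c - 1) * k + k = c * k := by
      obtain ⟨d, rfl⟩ : ∃ d, c = d + 1 := ⟨c - 1, by omega⟩
      simp; ring
    rw [this]; omega
  show (pk (c * k) (2 ^ (m + 1)) v &&& mask c k m) + (pk (c * k) (2 ^ (m + 1)) v - (pk (c * k) (2 ^ (m + 1)) v &&& mask c k m)) >>> ((c - 1) * k) = _
  rw [hl, hs, Nat.shiftRight_eq_div_pow, Nat.mul_div_cancel_left _ (by positivity), ← pk_add]
  congr 1; ring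

lemma comp_eq (c m : ℕ) (hc : 2 ≤ c) : ∀ (k : ℕ) (_ : 1 ≤ k) (v : ℕ → ℕ) (_ : ∀ q, v q < 2 ^ k),
    comp c m k (pk (c * k) (2 ^ m) v) = pk k (2 ^ m) v := by
  induction m with
  | zero =>
    intro k _ v _
    show pk (c * k) (2 ^ 0) v = _
    simp [pk]
  | succ m ih =>
    intro k hk v hv
    show comp c m (2 * k) (stage c k m (pk (c * k) (2 ^ (m + 1)) v)) = _
    rw [stage_eq c k m hc hk v hv, ih (2 * k) (by omega)]
    · rw [pow_succ, mul_comm (2 ^ m) 2, pk_pairs]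
    · intro q
      have h1 := hv (2 * q)
      have h2 : v (2 * q + 1) ≤ 2 ^ k - 1 := by have := hv (2 * q + 1); omega
      have h3 := Nat.mul_le_mul_left (2 ^ k) h2
      have h4 : 2 ^ (2 * k) = 2 ^ k * (2 ^ k - 1) + 2 ^ k := by
        have h5 := Nat.one_le_two_pow (n := k)
        have : 2 ^ (2 * k) = 2 ^ k * 2 ^ k := by rw [← pow_add]; congr 1; ring
        rw [this, ← Nat.mul_succ]; congr 1; omega
      omega

/-- groups of `c` lanes -/
lemma pk_groups (n c Q : ℕ) (f : ℕ → ℕ) :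
    pk n (c * Q) f = pk (n * c) Q (fun q => pk n c (fun i => f (c * q + i))) := by
  induction Q with
  | zero => simp [pk]
  | succ Q ih =>
    rw [pk_succ, ← ih, Nat.mul_succ, pk_add_split]
    congr 1
    rw [mul_comm (pk n c _)]
    congr 2; ring

lemma cmp_eq (c m : ℕ) (hc : 2 ≤ c) (f : ℕ → ℕ) (hf : ∀ i, f i < 2 ^ 16) :
    cmp c m (pk 16 (c * 2 ^ m) f) = pk 16 (2 ^ m) (fun q => f (c * q)) := by
  show comp c m 16 ((pk 16 (c * 2 ^ m) f) &&& (mask0 c m)) = _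
  rw [mask0_eq c m (by omega), pk_groups, pk_land _ _ _ (by omega) _
    (fun q _ => pk_lt 16 c _ (fun i _ => hf _))]
  have e : ∀ q < 2 ^ m, pk 16 c (fun i => f (c * q + i)) % 2 ^ 16 = f (c * q) := by
    intro q _
    obtain ⟨d, rfl⟩ : ∃ d, c = 1 + d := ⟨c - 1, by omega⟩
    have := pk_mod 16 (N := 1) (K := d) (fun i => f ((1 + d) * q + i)) (fun i _ => hf _)
    rw [mul_one] at this
    rw [this]
    simp [pk]
  rw [pk_congr _ _ e, mul_comm 16 c]
  exact comp_eq c m hc 16 (by norm_num) (fun q => f (c * q)) (fun q => hf _)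

end H5KL
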