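import Pool.Agent.Helper5.KL.Orbit
import Pool.Agent.Helper5.KL.Check

/-!
# Growth of the predecessor count from a potential (helper5, project KL, MP_77ff3d_nt)
-/

noncomputable section

namespace H5KL

open Real

/-- the child of `z = 9u+r` described by a pointer -/
def chd (sp : Sp) (u : ℕ) : ℕ := 3 * (mul' sp.three sp.e * u + sp.s) + cond sp.tb 2 0

lemma chd_mod (sp : Sp) (u : ℕ) : chd sp u % 3 ≠ 1 := by
  unfold chd
  cases sp.tb <;> simp <;> omega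

/-- what is needed from a residue class -/
structure Cls (A0 r : ℕ) (L : List Sp) : Prop where
  sum_le : ∀ x u, Gd A0 (9 * u + r) → (L.map (fun sp => fz x (chd sp u))).sum ≤ fz x (9 * u + r)
  hz : ∀ u, Gd A0 (9 * u + r) → ∀ sp ∈ L, HZ (chd sp u) (9 * u + r) ∧ chd sp u ≠ 9 * u + r
  size : ∀ u, ∀ sp ∈ L, 6 * (3 * chd sp u + 1) ≤ mul' sp.three sp.e * (2 * (3 * (9 * u + r) + 1) + 1)
  kmax : ∀ sp ∈ L, mul' sp.three sp.e ≤ 12288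
  kpos : ∀ sp ∈ L, 0 < mul' sp.three sp.e

lemma wt_lemma {γ : ℝ} (hγ0 : 0 < γ) (hγ1 : γ ≤ 1) {D K A z t x : ℕ} (hK : 0 < K)
    (hA : (A : ℝ) ≤ D * ((3 : ℝ) / K) ^ γ * (1 - 1 / 10 ^ 6)) (hz : 10 ^ 6 ≤ 3 * z + 1)
    (ht : 6 * (3 * t + 1) ≤ K * (2 * (3 * z + 1) + 1)) :
    (A : ℝ) * ((x : ℝ) / ((3 * z + 1 : ℕ) : ℝ)) ^ γ ≤ D * ((x : ℝ) / ((3 * t + 1 : ℕ) : ℝ)) ^ γ := by
  set a : ℝ := ((3 * z + 1 : ℕ) : ℝ) with ha
  set b : ℝ := ((3 * t + 1 : ℕ) : ℝ) with hb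
  have ha6 : (1000000 : ℝ) ≤ a := by
    rw [ha]
    have : ((1000000 : ℕ) : ℝ) ≤ ((3 * z + 1 : ℕ) : ℝ) := by
      apply Nat.cast_le.mpr; norm_num at hz; exact hz
    simpa using this
  have ha0 : 0 < a := by linarith
  have hb0 : 0 < b := by rw [hb]; positivity
  have hK0 : (0 : ℝ) < K := by exact_mod_cast hK
  have hx0 : (0 : ℝ) ≤ x := Nat.cast_nonneg x
  have hbK : 6 * b ≤ K * (2 * a + 1) := by rw [ha, hb]; exact_mod_cast ht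
  set ρ : ℝ := 2 * a / (2 * a + 1) with hρ
  have hρ0 : 0 < ρ := by rw [hρ]; positivity
  have hρ1 : ρ ≤ 1 := by rw [hρ, div_le_one (by positivity)]; linarith
  have hρ2 : 1 - 1 / 10 ^ 6 ≤ ρ := by
    have e : 1 - ρ = 1 / (2 * a + 1) := by rw [hρ]; field_simp; ring
    have e2 : 1 / (2 * a + 1) ≤ 1 / 1000000 := one_div_le_one_div_of_le (by norm_num) (by linarith)
    have e3 : (1 : ℝ) / 10 ^ 6 = 1 / 1000000 := by norm_num
    rw [e3]; linarith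
  have h1 : (3 / K) * (x / a) * ρ ≤ (x : ℝ) / b := by
    rw [le_div_iff₀ hb0]
    have e : (3 / (K : ℝ)) * (x / a) * ρ * b = x * (6 * b / (K * (2 * a + 1))) := by
      rw [hρ]; field_simp; ring
    rw [e]
    have h2 : 6 * b / (K * (2 * a + 1)) ≤ 1 := by
      rw [div_le_one (by positivity)]; exact hbK
    calc (x : ℝ) * (6 * b / (K * (2 * a + 1))) ≤ x * 1 := mul_le_mul_of_nonneg_left h2 hx0
      _ = x := mul_one _
  have h3 : ((3 / (K : ℝ)) * (x / a) * ρ) ^ γ ≤ ((x : ℝ) / b) ^ γ :=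
    Real.rpow_le_rpow (by positivity) h1 hγ0.le
  rw [Real.mul_rpow (by positivity) hρ0.le, Real.mul_rpow (by positivity) (by positivity)] at h3
  have h4 : ρ ≤ ρ ^ γ := by
    calc ρ = ρ ^ (1 : ℝ) := (Real.rpow_one ρ).symm
      _ ≤ ρ ^ γ := Real.rpow_le_rpow_of_exponent_ge hρ0 hρ1 hγ1
  have hp1 : (0 : ℝ) ≤ (3 / (K : ℝ)) ^ γ := by positivity
  have hp2 : (0 : ℝ) ≤ ((x : ℝ) / a) ^ γ := by positivity
  calc (A : ℝ) * ((x : ℝ) / a) ^ γ ≤ (D * ((3 : ℝ) / K) ^ γ * (1 - 1 / 10 ^ 6)) * ((x : ℝ) / a) ^ γ :=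
        mul_le_mul_of_nonneg_right hA hp2
    _ = D * ((3 / (K : ℝ)) ^ γ * ((x : ℝ) / a) ^ γ * (1 - 1 / 10 ^ 6)) := by ring
    _ ≤ D * ((3 / (K : ℝ)) ^ γ * ((x : ℝ) / a) ^ γ * ρ ^ γ) := by
        apply mul_le_mul_of_nonneg_left _ (Nat.cast_nonneg D)
        apply mul_le_mul_of_nonneg_left (hρ2.trans h4)
        positivity
    _ ≤ D * ((x : ℝ) / b) ^ γ := mul_le_mul_of_nonneg_left h3 (Nat.cast_nonneg D)

lemma step_lemma {γ Δ : ℝ} (hΔ : 0 < Δ) (D z x : ℕ) (hD : 0 < D) (g : ℕ → ℕ) (f : ℕ → ℕ)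
    (L : List (ℕ × ℕ))
    (hf : (L.map (fun t => f t.1)).sum ≤ f z)
    (hw : ∀ t ∈ L, (t.2 : ℝ) * ((x : ℝ) / ((3 * z + 1 : ℕ) : ℝ)) ^ γ ≤ D * ((x : ℝ) / ((3 * t.1 + 1 : ℕ) : ℝ)) ^ γ)
    (hIH : ∀ t ∈ L, Δ * (g t.1 : ℝ) * ((x : ℝ) / ((3 * t.1 + 1 : ℕ) : ℝ)) ^ γ ≤ f t.1)
    (hg : D * g z ≤ (L.map (fun t => t.2 * g t.1)).sum) :
    Δ * (g z : ℝ) * ((x : ℝ) / ((3 * z + 1 : ℕ) : ℝ)) ^ γ ≤ f z := by
  set X : ℝ := ((x : ℝ) / ((3 * z + 1 : ℕ) : ℝ)) ^ γ with hX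
  have hX0 : 0 ≤ X := by rw [hX]; positivity
  have hD0 : (0 : ℝ) < D := by exact_mod_cast hD
  -- D * Δ * g z * X ≤ D * f z
  have h1 : (D : ℝ) * (Δ * (g z : ℝ) * X) ≤ Δ * X * (((L.map (fun t => t.2 * g t.1)).sum : ℕ) : ℝ) := by
    have : ((D * g z : ℕ) : ℝ) ≤ (((L.map (fun t => t.2 * g t.1)).sum : ℕ) : ℝ) := by exact_mod_cast hg
    push_cast at this
    have h2 := mul_le_mul_of_nonneg_left this (by positivity : 0 ≤ Δ * X)
    calc _ = Δ * X * ((D : ℝ) * g z) := by ring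
      _ ≤ _ := by push_cast; exact h2
  have h3 : Δ * X * (((L.map (fun t => t.2 * g t.1)).sum : ℕ) : ℝ) ≤ D * (((L.map (fun t => f t.1)).sum : ℕ) : ℝ) := by
    clear hf hg h1
    induction L with
    | nil => simp
    | cons t L ih =>
      have i1 := ih (fun t ht => hIH t (List.mem_cons_of_mem _ ht)) (fun t ht => hw t (List.mem_cons_of_mem _ ht))
      have i2 := hw t List.mem_cons_self
      have i3 := hIH t List.mem_cons_self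
      simp only [List.map_cons, List.sum_cons, Nat.cast_add, Nat.cast_mul] at i1 ⊢
      have i4 : Δ * X * ((t.2 : ℝ) * g t.1) ≤ D * (f t.1 : ℝ) := by
        calc Δ * X * ((t.2 : ℝ) * g t.1) = Δ * (g t.1 : ℝ) * ((t.2 : ℝ) * X) := by ring
          _ ≤ Δ * (g t.1 : ℝ) * (D * ((x : ℝ) / ((3 * t.1 + 1 : ℕ) : ℝ)) ^ γ) :=
              mul_le_mul_of_nonneg_left i2 (by positivity)
          _ = D * (Δ * (g t.1 : ℝ) * ((x : ℝ) / ((3 * t.1 + 1 : ℕ) : ℝ)) ^ γ) := by ring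
          _ ≤ D * (f t.1 : ℝ) := mul_le_mul_of_nonneg_left i3 hD0.le
      linarith
  have h4 : (((L.map (fun t => f t.1)).sum : ℕ) : ℝ) ≤ f z := by exact_mod_cast hf
  have h5 : (D : ℝ) * (Δ * (g z : ℝ) * X) ≤ D * f z := by
    calc _ ≤ _ := h1
      _ ≤ _ := h3
      _ ≤ _ := mul_le_mul_of_nonneg_left h4 hD0.le
  exact le_of_mul_le_mul_left h5 hD0

/-- the growth theorem for good `z` -/
theorem grow_good {γ : ℝ} (hγ0 : 0 < γ) (hγ1 : γ ≤ 1) (D : ℕ) (hD : 0 < D) (g : ℕ → ℕ)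
    (hg2 : ∀ z, g z ≤ 2 ^ 16) (Ls : ℕ → List Sp)
    (hcls : ∀ r, r < 9 → r % 3 ≠ 1 → Cls (10 ^ 6) r (Ls r))
    (hA : ∀ r, r < 9 → r % 3 ≠ 1 → ∀ sp ∈ Ls r,
      (sp.A : ℝ) ≤ D * ((3 : ℝ) / (mul' sp.three sp.e : ℕ)) ^ γ * (1 - 1 / 10 ^ 6))
    (hineq : ∀ r, r < 9 → r % 3 ≠ 1 → ∀ u, D * g (9 * u + r) ≤ ((Ls r).map (fun sp => sp.A * g (chd sp u))).sum)
    (x : ℕ) : ∀ n z, fz x z ≤ n → Gd (10 ^ 6) z → z % 3 ≠ 1 → 3 * z + 1 ≤ x →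
      (1 / 2 ^ 29 : ℝ) * (g z : ℝ) * ((x : ℝ) / ((3 * z + 1 : ℕ) : ℝ)) ^ γ ≤ fz x z := by
  intro n
  induction n with
  | zero =>
    intro z hn _ _ hx
    have := fz_pos hx
    omega
  | succ n ih =>
    intro z hn hz hz3 hx
    have ha6 := Gd_ge hz
    by_cases hsmall : x < 8192 * (3 * z + 1)
    · have h1 : (1 : ℝ) ≤ fz x z := by exact_mod_cast fz_pos hx
      refine le_trans ?_ h1
      have hapos : (0 : ℝ) < ((3 * z + 1 : ℕ) : ℝ) := by positivity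
      have hq1 : 1 ≤ (x : ℝ) / ((3 * z + 1 : ℕ) : ℝ) := by
        rw [one_le_div hapos]; exact_mod_cast hx
      have hq2 : (x : ℝ) / ((3 * z + 1 : ℕ) : ℝ) ≤ 8192 := by
        rw [div_le_iff₀ hapos]; exact_mod_cast hsmall.le
      have h2 : ((x : ℝ) / ((3 * z + 1 : ℕ) : ℝ)) ^ γ ≤ 8192 := by
        calc _ ≤ ((x : ℝ) / ((3 * z + 1 : ℕ) : ℝ)) ^ (1 : ℝ) := Real.rpow_le_rpow_of_exponent_le hq1 hγ1
          _ = _ := Real.rpow_one _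
          _ ≤ _ := hq2
      have h3 : (g z : ℝ) ≤ 2 ^ 16 := by exact_mod_cast hg2 z
      calc (1 / 2 ^ 29 : ℝ) * (g z : ℝ) * ((x : ℝ) / ((3 * z + 1 : ℕ) : ℝ)) ^ γ
          ≤ (1 / 2 ^ 29 : ℝ) * 2 ^ 16 * 8192 := by
            apply mul_le_mul _ h2 (by positivity) (by positivity)
            exact mul_le_mul_of_nonneg_left h3 (by positivity)
        _ = 1 := by norm_num
    · push Not at hsmall
      obtain ⟨u, r, hr9, rfl⟩ : ∃ u r, r < 9 ∧ z = 9 * u + r := ⟨z / 9, z % 9, Nat.mod_lt _ (by norm_num), by omega⟩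
      have hr3 : r % 3 ≠ 1 := by omega
      have hc := hcls r hr9 hr3
      have hmap : ∀ (F : ℕ → ℕ), ((Ls r).map (fun sp => F (chd sp u)))
          = (((Ls r).map (fun sp => (chd sp u, sp.A))).map (fun t => F t.1)) := by
        intro F; rw [List.map_map]; rfl
      refine step_lemma (by positivity) D (9 * u + r) x hD g (fz x)
        ((Ls r).map (fun sp => (chd sp u, sp.A))) ?_ ?_ ?_ ?_
      · rw [← hmap]; exact hc.sum_le x u hz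
      · intro t ht
        rw [List.mem_map] at ht
        obtain ⟨sp, hsp, rfl⟩ := ht
        exact wt_lemma hγ0 hγ1 (hc.kpos sp hsp) (hA r hr9 hr3 sp hsp) ha6 (hc.size u sp hsp)
      · intro t ht
        rw [List.mem_map] at ht
        obtain ⟨sp, hsp, rfl⟩ := ht
        have h1 := hc.hz u hz sp hsp
        have h2 := fz_lt hz hx h1.1 h1.2
        refine ih _ (by simp only; omega) (Gd_of_hits h1.1 hz) (chd_mod sp u) ?_
        have h3 := hc.size u sp hsp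
        have h4 := hc.kmax sp hsp
        have h5 : mul' sp.three sp.e * (2 * (3 * (9 * u + r) + 1) + 1) ≤ 12288 * (2 * (3 * (9 * u + r) + 1) + 1) :=
          Nat.mul_le_mul_right _ h4
        simp only
        omega
      · have := hineq r hr9 hr3 u
        rw [List.map_map]
        exact this

theorem grow {γ : ℝ} (hγ0 : 0 < γ) (hγ1 : γ ≤ 1) (D : ℕ) (hD : 0 < D) (g : ℕ → ℕ)
    (hg1 : ∀ z, z % 3 ≠ 1 → 1 ≤ g z)
    (hg2 : ∀ z, g z ≤ 2 ^ 16) (Ls : ℕ → List Sp)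
    (hcls : ∀ r, r < 9 → r % 3 ≠ 1 → Cls (10 ^ 6) r (Ls r))
    (hA : ∀ r, r < 9 → r % 3 ≠ 1 → ∀ sp ∈ Ls r,
      (sp.A : ℝ) ≤ D * ((3 : ℝ) / (mul' sp.three sp.e : ℕ)) ^ γ * (1 - 1 / 10 ^ 6))
    (hineq : ∀ r, r < 9 → r % 3 ≠ 1 → ∀ u, D * g (9 * u + r) ≤ ((Ls r).map (fun sp => sp.A * g (chd sp u))).sum)
    (a : ℕ) (ha : 1 ≤ a) (ha3 : ¬ 3 ∣ a) :
    ∃ c : ℝ, 0 < c ∧ ∀ x : ℕ, a ≤ x → c * (x : ℝ) ^ γ ≤ cnt x a := by
  -- a number `a1 = 1 mod 3` hitting `a`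
  obtain ⟨a1, ha1, ha1m, hh1⟩ : ∃ a1, 1 ≤ a1 ∧ a1 % 3 = 1 ∧ Hits a1 a := by
    by_cases h : a % 3 = 1
    · exact ⟨a, ha, h, hits_refl a⟩
    · refine ⟨2 * a, by omega, ?_, hits_two a⟩
      have : a % 3 ≠ 0 := fun h0 => ha3 (Nat.dvd_of_mod_eq_zero h0)
      omega
  obtain ⟨J, hJ⟩ := good_root (10 ^ 6) a1 ha1
  have hmod3 : ∀ j, (4 ^ j * a1) % 3 = 1 := by
    intro j
    rw [Nat.mul_mod, Nat.pow_mod]; simp [ha1m]
  obtain ⟨j, hj, hj9⟩ : ∃ j, J ≤ j ∧ (4 ^ j * a1) % 9 ≠ 4 := by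
    by_cases h : (4 ^ J * a1) % 9 = 4
    · refine ⟨J + 1, by omega, ?_⟩
      have : 4 ^ (J + 1) * a1 = 4 * (4 ^ J * a1) := by ring
      omega
    · exact ⟨J, le_rfl, h⟩
  obtain ⟨hper, hpred⟩ := hJ j hj
  have hm := hmod3 j
  obtain ⟨z, hzr⟩ : ∃ z, 4 ^ j * a1 = 3 * z + 1 := ⟨(4 ^ j * a1) / 3, by omega⟩
  have hhr : Hits (3 * z + 1) a := by rw [← hzr]; exact hits_trans (hits_pow a1 j) hh1
  have hz3 : z % 3 ≠ 1 := by omega
  have hgd : Gd (10 ^ 6) z := ⟨by rw [← hzr]; exact hper, by rw [← hzr]; exact hpred⟩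
  set R : ℝ := ((3 * z + 1 : ℕ) : ℝ) with hR
  have hR0 : 0 < R := by rw [hR]; positivity
  refine ⟨1 / 2 ^ 29 / R ^ γ, by positivity, fun x hx => ?_⟩
  have hx0 : (0 : ℝ) ≤ x := Nat.cast_nonneg x
  have e : 1 / 2 ^ 29 / R ^ γ * (x : ℝ) ^ γ = 1 / 2 ^ 29 * ((x : ℝ) / R) ^ γ := by
    rw [Real.div_rpow hx0 hR0.le]; ring
  rw [e]
  by_cases hxr : 3 * z + 1 ≤ x
  · have h1 := grow_good hγ0 hγ1 D hD g hg2 Ls hcls hA hineq x _ z le_rfl hgd hz3 hxr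
    have h2 : (1 : ℝ) ≤ g z := by exact_mod_cast hg1 z hz3
    have h3 : (fz x z : ℝ) ≤ cnt x a := by
      exact_mod_cast (cnt_mono hhr : cnt x (3 * z + 1) ≤ cnt x a)
    have h4 : 0 ≤ ((x : ℝ) / R) ^ γ := by positivity
    calc 1 / 2 ^ 29 * ((x : ℝ) / R) ^ γ = 1 / 2 ^ 29 * 1 * ((x : ℝ) / R) ^ γ := by ring
      _ ≤ 1 / 2 ^ 29 * (g z : ℝ) * ((x : ℝ) / R) ^ γ := by
          apply mul_le_mul_of_nonneg_right _ h4
          exact mul_le_mul_of_nonneg_left h2 (by positivity)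
      _ ≤ fz x z := h1
      _ ≤ cnt x a := h3
  · push Not at hxr
    have h1 : (1 : ℝ) ≤ cnt x a := by
      have : 1 ≤ cnt x a := by
        unfold cnt
        rw [Nat.one_le_iff_ne_zero, Ne, Set.ncard_eq_zero (S_fin x _)]
        intro h
        have hmem : a ∈ S x a := ⟨ha, hx, hits_refl _⟩
        rw [h] at hmem
        exact hmem
      exact_mod_cast this
    refine le_trans ?_ h1
    have h2 : (x : ℝ) / R ≤ 1 := by
      rw [div_le_one hR0, hR]; exact_mod_cast hxr.le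
    have h3 : ((x : ℝ) / R) ^ γ ≤ 1 := Real.rpow_le_one (by positivity) h2 hγ0.le
    have h4 : (1 / 2 ^ 29 : ℝ) ≤ 1 := by norm_num
    have h5 : 0 ≤ ((x : ℝ) / R) ^ γ := by positivity
    nlinarith

end H5KL
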