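import Pool.Agent.Helper5.KL.Cls

/-!
# From the kernel check to the density theorem (helper5, project KL, MP_77ff3d_nt)
-/

noncomputable section

namespace H5KL

/-- the potential -/
def gT (M : ℕ) (T0 T2 : Tr) (z : ℕ) : ℕ :=
  if z % 3 = 0 then ev M T0 (z / 3) else if z % 3 = 2 then ev M T2 (z / 3) else 0

lemma gT_chd (M : ℕ) (T0 T2 : Tr) (sp : Sp) (u : ℕ) : gT M T0 T2 (chd sp u) = sp.ev M T0 T2 u := by
  unfold gT chd Sp.ev Sp.br
  cases sp.tb with
  | false =>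
    have e : (3 * (mul' sp.three sp.e * u + sp.s) + cond false 2 0) = 3 * (mul' sp.three sp.e * u + sp.s) := rfl
    rw [e, if_pos (by omega), Nat.mul_div_cancel_left _ (by norm_num)]
    rfl
  | true =>
    have e : (3 * (mul' sp.three sp.e * u + sp.s) + cond true 2 0) = 3 * (mul' sp.three sp.e * u + sp.s) + 2 := rfl
    rw [e, if_neg (by omega), if_pos (by omega), show (3 * (mul' sp.three sp.e * u + sp.s) + 2) / 3
      = mul' sp.three sp.e * u + sp.s by omega]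
    rfl

lemma chd_own (r : ℕ) (hr : r < 9) (hr3 : r % 3 ≠ 1) (u : ℕ) : chd (own r) u = 9 * u + r := by
  interval_cases r
  · show 3 * (3 * u + 0) + 0 = _; omega
  · omega
  · show 3 * (3 * u + 0) + 2 = _; omega
  · show 3 * (3 * u + 1) + 0 = _; omega
  · omega
  · show 3 * (3 * u + 1) + 2 = _; omega
  · show 3 * (3 * u + 2) + 0 = _; omega
  · omega
  · show 3 * (3 * u + 2) + 2 = _; omega

/-- the integer form of the weight conditions -/
def wOk (P q D : ℕ) (sp : Sp) : Bool :=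
  Nat.ble (Nat.mul (Nat.pow (Nat.mul sp.A 1000000) q) (Nat.pow (mul' sp.three sp.e) P))
    (Nat.mul (Nat.pow (Nat.mul D 999999) q) (Nat.pow 3 P))

lemma wOk_sound (P q D : ℕ) (hq : 0 < q) (sp : Sp) (hK : 0 < mul' sp.three sp.e)
    (h : wOk P q D sp = true) :
    (sp.A : ℝ) ≤ D * ((3 : ℝ) / (mul' sp.three sp.e : ℕ)) ^ ((P : ℝ) / q) * (1 - 1 / 10 ^ 6) := by
  have h' : (sp.A * 1000000) ^ q * (mul' sp.three sp.e) ^ P ≤ (D * 999999) ^ q * 3 ^ P :=
    Nat.le_of_ble_eq_true h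
  generalize mul' sp.three sp.e = K at h' hK ⊢
  generalize sp.A = A at h' ⊢
  have hK0 : (0 : ℝ) < K := by exact_mod_cast hK
  have hq0 : (0 : ℝ) < q := by exact_mod_cast hq
  have h1 : ((A : ℝ) * 1000000) ^ q * (K : ℝ) ^ P ≤ (D * 999999) ^ q * 3 ^ P := by exact_mod_cast h'
  have h2 : ((A : ℝ) * 1000000) ^ q ≤ ((D : ℝ) * 999999) ^ q * ((3 : ℝ) / K) ^ P := by
    rw [div_pow, ← mul_div_assoc, le_div_iff₀ (by positivity)]
    exact h1
  have h3 : ((3 : ℝ) / K) ^ P = (((3 : ℝ) / K) ^ ((P : ℝ) / q)) ^ q := by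
    rw [← Real.rpow_natCast (((3 : ℝ) / K) ^ ((P : ℝ) / q)) q, ← Real.rpow_mul (by positivity),
      div_mul_cancel₀ _ hq0.ne', Real.rpow_natCast]
  rw [h3, ← mul_pow] at h2
  have h4 : (A : ℝ) * 1000000 ≤ (D : ℝ) * 999999 * ((3 : ℝ) / K) ^ ((P : ℝ) / q) :=
    le_of_pow_le_pow_left₀ (by omega) (by positivity) h2
  have e : (1 : ℝ) - 1 / 10 ^ 6 = 999999 / 1000000 := by norm_num
  rw [e, ← mul_div_assoc, le_div_iff₀ (by norm_num)]
  linarith

/-- all weights of the six classes -/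
def wAll (P q D : ℕ) : Bool :=
  and ((Ls0).all (wOk P q D)) (and ((Ls2).all (wOk P q D)) (and ((Ls3).all (wOk P q D))
    (and ((Ls5).all (wOk P q D)) (and ((Ls6).all (wOk P q D)) ((Ls8).all (wOk P q D))))))

lemma wAll_spec (P q D : ℕ) (h : wAll P q D = true) :
    ∀ r, r < 9 → r % 3 ≠ 1 → ∀ sp ∈ Ls r, wOk P q D sp = true := by
  unfold wAll at h
  rw [Bool.and_eq_true, Bool.and_eq_true, Bool.and_eq_true, Bool.and_eq_true, Bool.and_eq_true] at h
  obtain ⟨h0, h2, h3, h5, h6, h8⟩ := h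
  intro r hr hr3
  interval_cases r
  · exact List.all_eq_true.mp h0
  · omega
  · exact List.all_eq_true.mp h2
  · exact List.all_eq_true.mp h3
  · omega
  · exact List.all_eq_true.mp h5
  · exact List.all_eq_true.mp h6
  · omega
  · exact List.all_eq_true.mp h8

theorem density (M m Q D P q p : ℕ) (hM : 0 < M) (hm : M ≤ 2 ^ m) (hQ2 : 2 * Q = M + 1) (hD : D ≤ 2 ^ 15)
    (hD0 : 0 < D) (hP : 0 < P) (hPq : P ≤ q) (T0 T2 : Tr) (h0 : isD T0 p = true) (h2 : isD T2 p = true)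
    (hw : wAll P q D = true)
    (hchk : ∀ r, r < 9 → r % 3 ≠ 1 → ∀ u0, u0 < 3 ^ p → chk M m Q D T0 T2 (own r) (Ls r) u0 = true)
    (a : ℕ) (ha : 1 ≤ a) (ha3 : ¬ 3 ∣ a) :
    ∃ c : ℝ, 0 < c ∧ ∀ x : ℕ, a ≤ x → c * (x : ℝ) ^ ((P : ℝ) / q) ≤ cnt x a := by
  have hq : 0 < q := by omega
  have hq0 : (0 : ℝ) < q := by exact_mod_cast hq
  have hP0 : (0 : ℝ) < P := by exact_mod_cast hP
  have key : ∀ r, r < 9 → r % 3 ≠ 1 → ∀ u, D * gT M T0 T2 (9 * u + r)
      ≤ ((Ls r).map (fun sp => sp.A * gT M T0 T2 (chd sp u))).sum ∧ 1 ≤ gT M T0 T2 (9 * u + r) := by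
    intro r hr hr3 u
    have h3 := chk_sound M m Q D hM hm hQ2 hD T0 T2 p h0 h2 (own r) (Ls r) (A_sum r hr hr3) (u % 3 ^ p)
      (hchk r hr hr3 _ (Nat.mod_lt _ (by positivity))) (u / 3 ^ p)
    rw [Nat.mod_add_div] at h3
    rw [← chd_own r hr hr3 u, gT_chd]
    have e : ((Ls r).map (fun sp => sp.A * gT M T0 T2 (chd sp u)))
        = ((Ls r).map (fun sp => sp.A * sp.ev M T0 T2 u)) :=
      List.map_congr_left (fun sp _ => by rw [gT_chd])
    rw [e]
    exact h3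
  refine grow (γ := (P : ℝ) / q) (by positivity) ?_ D hD0 (gT M T0 T2) ?_ ?_ Ls cls_all ?_
    (fun r hr hr3 u => (key r hr hr3 u).1) a ha ha3
  · rw [div_le_one hq0]; exact_mod_cast hPq
  · intro z hz
    have := (key (z % 9) (Nat.mod_lt _ (by norm_num)) (by omega) (z / 9)).2
    rw [Nat.div_add_mod] at this
    exact this
  · intro z
    unfold gT
    split_ifs
    · exact (navF_lt _ _ (fun _ _ => fd_lt _ _) _ _).le
    · exact (navF_lt _ _ (fun _ _ => fd_lt _ _) _ _).le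
    · positivity
  · intro r hr hr3 sp hsp
    exact wOk_sound P q D hq sp ((cls_all r hr hr3).kpos sp hsp) (wAll_spec P q D hw r hr hr3 sp hsp)

end H5KL
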