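import Pool.Agent.Helper5.KL.Comp

/-!
# Rotations, doubling, tripling of the lane index; lane comparison (helper5, project KL)

Blocks have `M` lanes of 16 bits.
-/

namespace H5KL

open Finset

/-- lane `i` of `x` -/
def fd (x i : ℕ) : ℕ := x / 2 ^ (16 * i) % 2 ^ 16

/-- array semantics -/
def arr (M : ℕ) (f : ℕ → ℕ) : ℕ := pk 16 M f

/-- cut to a block -/
def cut (M x : ℕ) : ℕ := Nat.mod x (Nat.pow 2 (Nat.mul 16 M))

/-- rotate by `c` lanes -/
def rotK (M x c : ℕ) : ℕ :=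
  Nat.mod (Nat.shiftRight (Nat.mul x (Nat.add (Nat.pow 2 (Nat.mul 16 M)) 1)) (Nat.mul 16 c))
    (Nat.pow 2 (Nat.mul 16 M))

/-- lane `i` becomes lane `2 i` -/
def dblK (M m x : ℕ) : ℕ := cmp 2 m (Nat.mul x (Nat.add (Nat.pow 2 (Nat.mul 16 M)) 1))

/-- lane `i` becomes lane `3 i` -/
def triK (M m x : ℕ) : ℕ :=
  cmp 3 m (Nat.mul x (Nat.add (Nat.pow 2 (Nat.mul 32 M)) (Nat.add (Nat.pow 2 (Nat.mul 16 M)) 1)))

/-- iterate doubling -/
def dblsK (M m e : ℕ) : ℕ → ℕ :=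
  Nat.rec (motive := fun _ => ℕ → ℕ) (fun x => x) (fun _ ih x => ih (dblK M m x)) e

lemma fd_lt (x i : ℕ) : fd x i < 2 ^ 16 := Nat.mod_lt _ (by positivity)

lemma cut_eq (M x : ℕ) : cut M x = arr M (fd x) := by
  show x % 2 ^ (16 * M) = _
  have h := eq_pk 16 M (x % 2 ^ (16 * M)) (Nat.mod_lt _ (by positivity))
  rw [h]
  refine pk_congr _ _ (fun i hi => ?_)
  unfold fd
  have e : 2 ^ (16 * M) = 2 ^ (16 * i) * 2 ^ (16 * M - 16 * i) := by
    rw [← pow_add]; congr 1; omega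
  rw [e, Nat.mod_mul_right_div_self]
  have e2 : 2 ^ (16 * M - 16 * i) = 2 ^ 16 * 2 ^ (16 * M - 16 * i - 16) := by
    rw [← pow_add]; congr 1; omega
  rw [e2, Nat.mod_mul_right_mod]

lemma rep2 (M : ℕ) (f : ℕ → ℕ) :
    arr M f * (2 ^ (16 * M) + 1) = pk 16 (M + M) (fun i => f (i % M)) := by
  rw [pk_add_split]
  have e1 : pk 16 M (fun i => f (i % M)) = arr M f := by
    refine pk_congr _ _ (fun i hi => by rw [Nat.mod_eq_of_lt hi])
  have e2 : pk 16 M (fun i => f ((M + i) % M)) = arr M f := by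
    refine pk_congr _ _ (fun i hi => by rw [Nat.add_mod_left, Nat.mod_eq_of_lt hi])
  rw [e1, e2]; ring

lemma rep3 (M : ℕ) (f : ℕ → ℕ) :
    arr M f * (2 ^ (32 * M) + (2 ^ (16 * M) + 1)) = pk 16 (M + M + M) (fun i => f (i % M)) := by
  rw [pk_add_split, ← rep2]
  have e2 : pk 16 M (fun i => f ((M + M + i) % M)) = arr M f := by
    refine pk_congr _ _ (fun i hi => by
      rw [add_assoc, Nat.add_mod_left, Nat.add_mod_left, Nat.mod_eq_of_lt hi])
  have e3 : 16 * (M + M) = 32 * M := by ring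
  rw [e2, e3]; ring

lemma rot_eq (M : ℕ) (f : ℕ → ℕ) (hf : ∀ i, f i < 2 ^ 16) (c : ℕ) (hc : c < M) :
    rotK M (arr M f) c = arr M (fun i => f ((i + c) % M)) := by
  show (arr M f * (2 ^ (16 * M) + 1)) >>> (16 * c) % 2 ^ (16 * M) = _
  rw [rep2, Nat.shiftRight_eq_div_pow]
  have e : M + M = c + (M + (M - c)) := by omega
  rw [e, pk_div 16 _ (fun i _ => hf _)]
  rw [pk_mod 16 _ (fun i _ => hf _)]
  unfold arr
  refine pk_congr _ _ (fun i hi => ?_)
  rw [add_comm c i]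

lemma cmp_arr (M m c : ℕ) (hm : M ≤ 2 ^ m) (hc : 2 ≤ c) (f : ℕ → ℕ) (hf : ∀ i, f i < 2 ^ 16) (N : ℕ)
    (hN : N = c * M) :
    cmp c m (pk 16 N (fun i => f (i % M))) = arr M (fun i => f ((c * i) % M)) := by
  have h1 : N ≤ c * 2 ^ m := by rw [hN]; exact Nat.mul_le_mul_left c hm
  rw [← pk_ext 16 h1, cmp_eq c m hc _ (by intro i; split_ifs; exact hf _; positivity)]
  unfold arr
  rw [← pk_ext 16 hm]
  refine pk_congr _ _ (fun i _ => ?_)
  have : c * i < N ↔ i < M := by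
    rw [hN]; exact Nat.mul_lt_mul_left (by omega)
  simp only [this]

lemma dbl_eq (M m : ℕ) (hm : M ≤ 2 ^ m) (f : ℕ → ℕ) (hf : ∀ i, f i < 2 ^ 16) :
    dblK M m (arr M f) = arr M (fun i => f ((2 * i) % M)) := by
  show cmp 2 m (arr M f * (2 ^ (16 * M) + 1)) = _
  rw [rep2]
  exact cmp_arr M m 2 hm le_rfl f hf _ (by ring)

lemma tri_eq (M m : ℕ) (hm : M ≤ 2 ^ m) (f : ℕ → ℕ) (hf : ∀ i, f i < 2 ^ 16) :
    triK M m (arr M f) = arr M (fun i => f ((3 * i) % M)) := by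
  show cmp 3 m (arr M f * (2 ^ (32 * M) + (2 ^ (16 * M) + 1))) = _
  rw [rep3]
  exact cmp_arr M m 3 hm (by norm_num) f hf _ (by ring)

lemma dbls_eq (M m : ℕ) (hm : M ≤ 2 ^ m) (e : ℕ) : ∀ (f : ℕ → ℕ) (_ : ∀ i, f i < 2 ^ 16),
    dblsK M m e (arr M f) = arr M (fun i => f ((2 ^ e * i) % M)) := by
  induction e with
  | zero =>
    intro f _
    show arr M f = _
    refine pk_congr _ _ (fun i hi => by rw [pow_zero, one_mul, Nat.mod_eq_of_lt hi])
  | succ e ih =>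
    intro f hf
    show dblsK M m e (dblK M m (arr M f)) = _
    rw [dbl_eq M m hm f hf, ih _ (fun i => hf _)]
    refine pk_congr _ _ (fun i _ => ?_)
    congr 1
    rw [Nat.mul_mod, Nat.mod_mod, ← Nat.mul_mod, pow_succ]
    congr 1; ring

/-- ones in 32 bit lanes; `Q` lanes -/
def ones (Q : ℕ) : ℕ := Nat.div (Nat.sub (Nat.pow 2 (Nat.mul 32 Q)) 1) (Nat.sub (Nat.pow 2 32) 1)

/-- lanes of parity `s`, in 32 bit lanes -/
def half (Q s x : ℕ) : ℕ := Nat.land (Nat.shiftRight x (Nat.mul 16 s)) (Nat.mul 65535 (ones Q))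

/-- lanewise comparison -/
def leL (Q a b : ℕ) : Bool :=
  and (Nat.ble a b) (Nat.beq (Nat.land (Nat.sub b a) (Nat.mul 2147483648 (ones Q))) 0)

lemma ones_eq (Q : ℕ) : ones Q = pk 32 Q (fun _ => 1) := by
  rw [pk_const _ _ _ (by norm_num), one_mul]; rfl

lemma half_eq (M Q s : ℕ) (hs : s ≤ 1) (hsM : s ≤ M) (hQ : M ≤ 2 * Q) (f : ℕ → ℕ) (hf : ∀ i, f i < 2 ^ 16) :
    half Q s (arr M f) = pk 32 Q (fun q => if 2 * q + s < M then f (2 * q + s) else 0) := by
  show (arr M f) >>> (16 * s) &&& (65535 * ones Q) = _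
  rw [Nat.shiftRight_eq_div_pow]
  have e : M = s + (M - s) := by omega
  have h1 : arr M f / 2 ^ (16 * s) = pk 16 (M - s) (fun i => f (s + i)) := by
    unfold arr
    have := pk_div 16 (N := s) (K := M - s) f (fun i _ => hf _)
    rw [← e] at this
    exact this
  have hmE : 65535 * ones Q = pk 32 Q (fun _ => 2 ^ 16 - 1) := by
    rw [ones_eq, ← pk_mul]
    exact pk_congr _ _ (fun _ _ => by norm_num)
  rw [h1, ← pk_ext 16 (show M - s ≤ 2 * Q by omega), hmE, pk_pairs, pk_land _ _ _ (by norm_num)]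
  · refine pk_congr _ _ (fun q _ => ?_)
    rw [Nat.add_mul_mod_self_left]
    have : (2 * q < M - s) ↔ (2 * q + s < M) := by omega
    simp only [this]
    split_ifs with h
    · rw [Nat.mod_eq_of_lt (hf _), add_comm]
    · rfl
  · intro q _
    have h2 : ∀ j, (if j < M - s then f (s + j) else 0) ≤ 2 ^ 16 - 1 := by
      intro j; split_ifs
      · have := hf (s + j); omega
      · omega
    have h3 := h2 (2 * q)
    have h4 := h2 (2 * q + 1)
    generalize (if 2 * q < M - s then f (s + 2 * q) else 0) = y1 at h3 ⊢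
    generalize (if 2 * q + 1 < M - s then f (s + (2 * q + 1)) else 0) = y2 at h4 ⊢
    norm_num at h3 h4 ⊢
    omega

/-- lane comparison is sound -/
lemma leL_sound (Q : ℕ) (a b : ℕ → ℕ) (N : ℕ) (hN : N ≤ Q) (ha : ∀ i < N, a i < 2 ^ 31)
    (hb : ∀ i < N, b i < 2 ^ 32)
    (h : leL Q (pk 32 N a) (pk 32 N b) = true) : ∀ i < N, a i ≤ b i := by
  unfold leL at h
  rw [Bool.and_eq_true] at h
  have h1 : pk 32 N a ≤ pk 32 N b := Nat.le_of_ble_eq_true h.1
  have h2 : (pk 32 N b - pk 32 N a) &&& (2147483648 * ones Q) = 0 := Nat.eq_of_beq_eq_true h.2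
  have hgH : 2147483648 * ones Q = pk 32 Q (fun _ => 2 ^ 31) := by
    rw [ones_eq, ← pk_mul]
    exact pk_congr _ _ (fun _ _ => by norm_num)
  rw [hgH] at h2
  set d := pk 32 N b - pk 32 N a with hd
  have hdlt : d < 2 ^ (32 * N) := lt_of_le_of_lt (Nat.sub_le _ _) (pk_lt 32 N b hb)
  have hdp := eq_pk 32 N d hdlt
  have hdig : ∀ i < N, d / 2 ^ (32 * i) % 2 ^ 32 < 2 ^ 31 := by
    intro i hi
    have h3 : ((d &&& pk 32 Q (fun _ => 2 ^ 31)) / 2 ^ (32 * i)) % 2 ^ 32 = 0 := by rw [h2]; simp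
    rw [Nat.and_div_two_pow, Nat.and_mod_two_pow] at h3
    have h4 : pk 32 Q (fun _ => 2 ^ 31) / 2 ^ (32 * i) % 2 ^ 32 = 2 ^ 31 :=
      pk_dig 32 Q _ (fun _ _ => by norm_num) i (by omega)
    rw [h4] at h3
    by_contra hcon
    push Not at hcon
    have h5 : (d / 2 ^ (32 * i) % 2 ^ 32).testBit 31 = true := by
      have hlt : d / 2 ^ (32 * i) % 2 ^ 32 < 2 ^ 32 := Nat.mod_lt _ (by positivity)
      generalize d / 2 ^ (32 * i) % 2 ^ 32 = y at hcon hlt ⊢
      rw [Nat.testBit_eq_decide_div_mod_eq]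
      have : y / 2 ^ 31 = 1 := by
        apply Nat.div_eq_of_lt_le
        · omega
        · omega
      rw [this]; rfl
    have h6 := congrArg (fun y => Nat.testBit y 31) h3
    simp only [Nat.testBit_and, h5, Nat.testBit_two_pow_self, Nat.zero_testBit] at h6
    exact absurd h6 (by decide)
  have hsum : pk 32 N (fun i => a i + d / 2 ^ (32 * i) % 2 ^ 32) = pk 32 N b := by
    rw [pk_add, ← hdp]; omega
  intro i hi
  have := pk_inj 32 N _ b (fun i hi => by have := ha i hi; have := hdig i hi; omega) hb hsum i hi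
  omega

end H5KL
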