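import Mathlib

/-!
# Predecessor sets of the 3x-1 map (helper5, project KL, MP_77ff3d_nt)
-/

namespace H5KL

/-- the `3x-1` map -/
def T (a : ℕ) : ℕ := if a % 2 = 0 then a / 2 else 3 * a - 1

/-- the trajectory of `n` meets `a` -/
def Hits (n a : ℕ) : Prop := ∃ k, T^[k] n = a

/-- integers `1 ≤ n ≤ x` whose trajectory meets `a` -/
def S (x a : ℕ) : Set ℕ := {n | 1 ≤ n ∧ n ≤ x ∧ Hits n a}

/-- their number -/
noncomputable def cnt (x a : ℕ) : ℕ := (S x a).ncard

/-- on a cycle -/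
def Per (a : ℕ) : Prop := ∃ k, 1 ≤ k ∧ T^[k] a = a

lemma S_fin (x a : ℕ) : (S x a).Finite :=
  (Set.finite_Icc 1 x).subset (fun n hn => ⟨hn.1, hn.2.1⟩)

lemma hits_trans {a b c : ℕ} (h1 : Hits a b) (h2 : Hits b c) : Hits a c := by
  obtain ⟨k, rfl⟩ := h1
  obtain ⟨l, rfl⟩ := h2
  exact ⟨l + k, by rw [Function.iterate_add_apply]⟩

lemma hits_refl (a : ℕ) : Hits a a := ⟨0, rfl⟩

lemma S_mono {x a b : ℕ} (h : Hits b a) : S x b ⊆ S x a := fun _ hn => ⟨hn.1, hn.2.1, hits_trans hn.2.2 h⟩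

lemma T_two (a : ℕ) : T (2 * a) = a := by
  unfold T
  rw [if_pos (by omega)]; omega

lemma hits_two (a : ℕ) : Hits (2 * a) a := ⟨1, T_two a⟩

lemma hits_four (a : ℕ) : Hits (4 * a) a := by
  have := hits_trans (hits_two (2 * a)) (hits_two a)
  rwa [← mul_assoc] at this

/-- `6w+1` maps to `2(9w+1)` -/
lemma T_b (w : ℕ) : T (6 * w + 1) = 2 * (9 * w + 1) := by
  unfold T
  rw [if_neg (by omega)]; omega

/-- `6w+5` maps to `2(9w+7)` -/
lemma T_c (w : ℕ) : T (6 * w + 5) = 2 * (9 * w + 7) := by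
  unfold T
  rw [if_neg (by omega)]; omega

lemma per_of_hits {a b : ℕ} (h1 : Hits a b) (h2 : Hits b a) (hab : a ≠ b) : Per a := by
  obtain ⟨k, hk⟩ := h1
  obtain ⟨l, hl⟩ := h2
  refine ⟨l + k, ?_, ?_⟩
  · rcases Nat.eq_zero_or_pos k with rfl | hk0
    · exact absurd hk (by simpa using hab)
    · omega
  · rw [Function.iterate_add_apply, hk, hl]

lemma per_hits {a b : ℕ} (hb : Per b) (h : Hits b a) : Per a := by
  obtain ⟨k, hk, hkb⟩ := hb
  obtain ⟨j, rfl⟩ := h
  refine ⟨k, hk, ?_⟩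
  rw [← Function.iterate_add_apply, add_comm, Function.iterate_add_apply, hkb]

/-- if the trajectory of `n` meets two different preimages `b, c` of `d`, then `d` is on a cycle -/
lemma two_preimages {n b c d : ℕ} (hb : T b = d) (hc : T c = d) (hbc : b ≠ c) (h1 : Hits n b)
    (h2 : Hits n c) : Per d := by
  obtain ⟨k, hk⟩ := h1
  obtain ⟨l, hl⟩ := h2
  wlog hkl : k < l generalizing b c k l with H
  · rcases Nat.lt_or_ge l k with h | h
    · exact H hc hb (Ne.symm hbc) l hl k hk h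
    · have : k = l := by omega
      subst this
      exact absurd (hk.symm.trans hl) hbc
  · -- d = o(k+1), d = o(l+1)
    have e1 : T^[k + 1] n = d := by rw [Function.iterate_succ_apply', hk, hb]
    have e2 : T^[l + 1] n = d := by rw [Function.iterate_succ_apply', hl, hc]
    refine ⟨l - k, by omega, ?_⟩
    have : l + 1 = (l - k) + (k + 1) := by omega
    rw [this, Function.iterate_add_apply, e1] at e2
    exact e2

lemma cnt_mono {x a b : ℕ} (h : Hits b a) : cnt x b ≤ cnt x a :=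
  Set.ncard_le_ncard (S_mono h) (S_fin x a)

/-- a general splitting lemma -/
lemma cnt_split {x a b c d : ℕ} (hb : T b = d) (hc : T c = d) (hbc : b ≠ c) (hd : Hits d a)
    (hp : ¬ Per a) : cnt x b + cnt x c ≤ cnt x a := by
  have hdisj : Disjoint (S x b) (S x c) := by
    rw [Set.disjoint_left]
    intro n h1 h2
    exact hp (per_hits (two_preimages hb hc hbc h1.2.2 h2.2.2) hd)
  have hb' : Hits b a := hits_trans ⟨1, hb⟩ hd
  have hc' : Hits c a := hits_trans ⟨1, hc⟩ hd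
  unfold cnt
  rw [← Set.ncard_union_eq hdisj (S_fin x b) (S_fin x c)]
  exact Set.ncard_le_ncard (Set.union_subset (S_mono hb') (S_mono hc')) (S_fin x a)

/-- counting function in the variable `z`, `a = 3z+1` -/
noncomputable def fz (x z : ℕ) : ℕ := cnt x (3 * z + 1)

lemma F1 (x z : ℕ) : fz x (4 * z + 1) ≤ fz x z := by
  unfold fz
  have : 3 * (4 * z + 1) + 1 = 4 * (3 * z + 1) := by ring
  rw [this]
  exact cnt_mono (hits_four _)

lemma F2 (x w : ℕ) (hp : ¬ Per (3 * (3 * w) + 1)) : fz x (12 * w + 1) + fz x (2 * w) ≤ fz x (3 * w) := by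
  unfold fz
  have e1 : 3 * (12 * w + 1) + 1 = 2 * (2 * (9 * w + 1)) := by ring
  have e2 : 3 * (2 * w) + 1 = 6 * w + 1 := by ring
  have e3 : 3 * (3 * w) + 1 = 9 * w + 1 := by ring
  rw [e3] at hp
  rw [e1, e2, e3]
  exact cnt_split (T_two _) (T_b w) (by omega) (hits_two _) hp

lemma F3 (x w : ℕ) (hp : ¬ Per (3 * (3 * w + 2) + 1)) :
    fz x (12 * w + 9) + fz x (4 * w + 3) ≤ fz x (3 * w + 2) := by
  have h0 : fz x (4 * w + 3) ≤ cnt x (6 * w + 5) := by
    unfold fz
    have : 3 * (4 * w + 3) + 1 = 2 * (6 * w + 5) := by ring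
    rw [this]; exact cnt_mono (hits_two _)
  have h1 : fz x (12 * w + 9) + cnt x (6 * w + 5) ≤ fz x (3 * w + 2) := by
    unfold fz
    have e1 : 3 * (12 * w + 9) + 1 = 2 * (2 * (9 * w + 7)) := by ring
    have e3 : 3 * (3 * w + 2) + 1 = 9 * w + 7 := by ring
    rw [e3] at hp
    rw [e1, e3]
    exact cnt_split (T_two _) (T_c w) (by omega) (hits_two _) hp
  omega

/-- the hypothesis on the root: not on a cycle, and no small predecessors -/
def Gd (A0 z : ℕ) : Prop := ¬ Per (3 * z + 1) ∧ ∀ n, 1 ≤ n → Hits n (3 * z + 1) → A0 ≤ n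

lemma Gd_of_hits {A0 z z' : ℕ} (h : Hits (3 * z' + 1) (3 * z + 1)) (hz : Gd A0 z) : Gd A0 z' :=
  ⟨fun hp => hz.1 (per_hits hp h), fun n hn hh => hz.2 n hn (hits_trans hh h)⟩

lemma Gd_ge {A0 z : ℕ} (h : Gd A0 z) : A0 ≤ 3 * z + 1 := h.2 _ (by omega) (hits_refl _)

/-- orbit relations in the variable `z` -/
def HZ (z' z : ℕ) : Prop := Hits (3 * z' + 1) (3 * z + 1)

lemma HZ_trans {a b c : ℕ} (h1 : HZ a b) (h2 : HZ b c) : HZ a c := hits_trans h1 h2

lemma H1 (z : ℕ) : HZ (4 * z + 1) z := by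
  unfold HZ
  have : 3 * (4 * z + 1) + 1 = 4 * (3 * z + 1) := by ring
  rw [this]; exact hits_four _

lemma H2 (w : ℕ) : HZ (2 * w) (3 * w) := by
  unfold HZ
  have e2 : 3 * (2 * w) + 1 = 6 * w + 1 := by ring
  have e3 : 3 * (3 * w) + 1 = 9 * w + 1 := by ring
  rw [e2, e3]
  exact hits_trans ⟨1, T_b w⟩ (hits_two _)

lemma H3 (w : ℕ) : HZ (4 * w + 3) (3 * w + 2) := by
  unfold HZ
  have e2 : 3 * (4 * w + 3) + 1 = 2 * (6 * w + 5) := by ring
  have e3 : 3 * (3 * w + 2) + 1 = 9 * w + 7 := by ring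
  rw [e2, e3]
  exact hits_trans (hits_two _) (hits_trans ⟨1, T_c w⟩ (hits_two _))

/-- a proper predecessor has a smaller count -/
lemma fz_lt {A0 x z z' : ℕ} (hz : Gd A0 z) (hx : 3 * z + 1 ≤ x) (h : HZ z' z) (hne : z' ≠ z) :
    fz x z' < fz x z := by
  unfold fz cnt
  refine Set.ncard_lt_ncard ⟨S_mono h, ?_⟩ (S_fin x _)
  intro hsub
  have h1 : 3 * z + 1 ∈ S x (3 * z + 1) := ⟨by omega, hx, hits_refl _⟩
  have h2 := (hsub h1).2.2
  exact hz.1 (per_of_hits h2 h (by omega))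

lemma fz_pos {x z : ℕ} (hx : 3 * z + 1 ≤ x) : 1 ≤ fz x z := by
  unfold fz cnt
  rw [Nat.one_le_iff_ne_zero, Ne, Set.ncard_eq_zero (S_fin x _)]
  intro h
  have : 3 * z + 1 ∈ S x (3 * z + 1) := ⟨by omega, hx, hits_refl _⟩
  rw [h] at this
  exact this

/-! ### existence of a good root -/

lemma hits_pow (a j : ℕ) : Hits (4 ^ j * a) a := by
  induction j with
  | zero => simpa using hits_refl a
  | succ j ih =>
    have : 4 ^ (j + 1) * a = 4 * (4 ^ j * a) := by ring
    rw [this]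
    exact hits_trans (hits_four _) ih

lemma per_bdd {a : ℕ} (h : Per a) : ∃ B, ∀ k, T^[k] a ≤ B := by
  obtain ⟨p, hp, hpa⟩ := h
  refine ⟨(Finset.range p).sup (fun k => T^[k] a), fun k => ?_⟩
  have : T^[k] a = T^[k % p] a := by
    have h2 := Nat.mod_add_div k p
    conv_lhs => rw [← h2]
    rw [Function.iterate_add_apply]
    congr 1
    have h3 : ∀ q, T^[p * q] a = a := by
      intro q
      induction q with
      | zero => rfl
      | succ q ih => rw [Nat.mul_succ, Function.iterate_add_apply, hpa, ih]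
    exact h3 _
  rw [this]
  exact Finset.le_sup (f := fun k => T^[k] a) (Finset.mem_range.mpr (Nat.mod_lt _ (by omega)))

/-- `a` meets only boundedly many `4^j a` -/
lemma self_bdd (a : ℕ) : ∃ B, ∀ j, Hits a (4 ^ j * a) → 4 ^ j * a ≤ B := by
  by_cases hp : Per a
  · obtain ⟨B, hB⟩ := per_bdd hp
    exact ⟨B, fun j ⟨k, hk⟩ => hk ▸ hB k⟩
  · refine ⟨a, fun j hj => ?_⟩
    by_contra hcon
    push Not at hcon
    exact hp (per_of_hits hj (hits_pow a j) (by omega))

lemma all_bdd (a n : ℕ) : ∃ B, ∀ j, Hits n (4 ^ j * a) → 4 ^ j * a ≤ B := by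
  by_cases h : Hits n a
  · obtain ⟨k0, hk0⟩ := h
    obtain ⟨B, hB⟩ := self_bdd a
    refine ⟨max B ((Finset.range (k0 + 1)).sup (fun k => T^[k] n)), fun j ⟨k, hk⟩ => ?_⟩
    by_cases hkk : k ≤ k0
    · refine le_trans ?_ (le_max_right _ _)
      rw [← hk]
      exact Finset.le_sup (f := fun k => T^[k] n) (Finset.mem_range.mpr (by omega))
    · refine le_trans (hB j ⟨k - k0, ?_⟩) (le_max_left _ _)
      calc T^[k - k0] a = T^[k - k0] (T^[k0] n) := by rw [hk0]
        _ = T^[k - k0 + k0] n := (Function.iterate_add_apply _ _ _ _).symm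
        _ = T^[k] n := by rw [Nat.sub_add_cancel (by omega)]
        _ = 4 ^ j * a := hk
  · exact ⟨0, fun j hj => absurd (hits_trans hj (hits_pow a j)) h⟩

lemma per_self {a j : ℕ} (h : Per (4 ^ j * a)) : Hits a (4 ^ j * a) := by
  obtain ⟨p, hp, hpa⟩ := h
  obtain ⟨l, hl⟩ := hits_pow a j
  have h3 : ∀ q, T^[p * q] (4 ^ j * a) = 4 ^ j * a := by
    intro q
    induction q with
    | zero => rfl
    | succ q ih => rw [Nat.mul_succ, Function.iterate_add_apply, hpa, ih]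
  refine ⟨p * l - l, ?_⟩
  have h4 := h3 l
  have h5 : l ≤ p * l := by nlinarith
  rw [show p * l = (p * l - l) + l by omega, Function.iterate_add_apply, hl] at h4
  exact h4

/-- for large `j`, `4^j a` is not on a cycle and has no small predecessors -/
lemma good_root (A0 a : ℕ) (ha : 1 ≤ a) : ∃ J, ∀ j, J ≤ j →
    ¬ Per (4 ^ j * a) ∧ ∀ n, 1 ≤ n → Hits n (4 ^ j * a) → A0 ≤ n := by
  choose B hB using all_bdd a
  set C := (Finset.range (A0 + a + 1)).sup B with hC
  refine ⟨C + 1, fun j hj => ?_⟩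
  have hbig : C < 4 ^ j * a := by
    have h1 : j < 4 ^ j := Nat.lt_pow_self (by norm_num)
    have h2 : 4 ^ j ≤ 4 ^ j * a := Nat.le_mul_of_pos_right _ ha
    omega
  have key : ∀ n, n ≤ A0 + a → ¬ Hits n (4 ^ j * a) := by
    intro n hn hh
    have h1 := hB n j hh
    have h2 : B n ≤ C := Finset.le_sup (f := B) (Finset.mem_range.mpr (by omega))
    omega
  refine ⟨fun hp => key a (by omega) (per_self hp), fun n _ hh => ?_⟩
  by_contra hcon
  push Not at hcon
  exact key n (by omega) hh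

end H5KL
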