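import Mathlib

/-!
# Packed arrays of natural numbers (lanes of 16 bits), helper5, project KL (MP_77ff3d_nt)

`arr N f = sum_{i<N} f i 2^(16 i)`.  The operations below are written with the bare `Nat` functions so that the
kernel evaluates them with its big number arithmetic.
-/

namespace H5KL

open Finset

/-- packed sum with lane width `n` -/
def pk (n N : ℕ) (f : ℕ → ℕ) : ℕ := ∑ i ∈ range N, f i * 2 ^ (n * i)

lemma pk_succ (n N : ℕ) (f : ℕ → ℕ) : pk n (N + 1) f = pk n N f + f N * 2 ^ (n * N) := by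
  unfold pk; rw [sum_range_succ]

lemma pk_zero (n : ℕ) (f : ℕ → ℕ) : pk n 0 f = 0 := by
  unfold pk; simp

lemma pk_lt (n N : ℕ) (f : ℕ → ℕ) (hf : ∀ i < N, f i < 2 ^ n) : pk n N f < 2 ^ (n * N) := by
  induction N with
  | zero => simp [pk]
  | succ N ih =>
    rw [pk_succ]
    have h1 := ih (fun i hi => hf i (by omega))
    have h2 := hf N (by omega)
    have h3 : f N * 2 ^ (n * N) ≤ (2 ^ n - 1) * 2 ^ (n * N) := Nat.mul_le_mul_right _ (by omega)
    have h4 : 2 ^ (n * (N + 1)) = (2 ^ n - 1) * 2 ^ (n * N) + 2 ^ (n * N) := by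
      have : 2 ^ n = (2 ^ n - 1) + 1 := by have := Nat.one_le_two_pow (n := n); omega
      rw [Nat.mul_succ, pow_add, mul_comm (2 ^ (n * N)) (2 ^ n)]
      nth_rewrite 1 [this]
      ring
    omega

lemma pk_congr (n N : ℕ) {f g : ℕ → ℕ} (h : ∀ i < N, f i = g i) : pk n N f = pk n N g := by
  unfold pk
  exact sum_congr rfl (fun i hi => by rw [h i (mem_range.mp hi)])

/-- a longer array of zeros behind -/
lemma pk_ext (n : ℕ) {N N' : ℕ} (h : N ≤ N') (f : ℕ → ℕ) :
    pk n N' (fun i => if i < N then f i else 0) = pk n N f := by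
  unfold pk
  rw [← Finset.sum_subset (range_subset_range.mpr h) (f := fun i => (if i < N then f i else 0) * 2 ^ (n * i))]
  · exact sum_congr rfl (fun i hi => by simp [mem_range.mp hi])
  · intro i _ hi
    have : ¬ i < N := by simpa using hi
    simp [this]

lemma pk_add_split (n N K : ℕ) (f : ℕ → ℕ) :
    pk n (N + K) f = pk n N f + 2 ^ (n * N) * pk n K (fun i => f (N + i)) := by
  unfold pk
  rw [sum_range_add, mul_sum]
  congr 1
  refine sum_congr rfl (fun i _ => ?_)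
  rw [mul_add, pow_add]; ring

lemma pk_mod (n : ℕ) {N K : ℕ} (f : ℕ → ℕ) (hf : ∀ i < N, f i < 2 ^ n) :
    pk n (N + K) f % 2 ^ (n * N) = pk n N f := by
  rw [pk_add_split, Nat.add_mul_mod_self_left]
  exact Nat.mod_eq_of_lt (pk_lt n N f hf)

lemma pk_div (n : ℕ) {N K : ℕ} (f : ℕ → ℕ) (hf : ∀ i < N, f i < 2 ^ n) :
    pk n (N + K) f / 2 ^ (n * N) = pk n K (fun i => f (N + i)) := by
  rw [pk_add_split, Nat.add_mul_div_left _ _ (by positivity)]
  rw [Nat.div_eq_of_lt (pk_lt n N f hf), zero_add]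

/-- digit -/
lemma pk_dig (n N : ℕ) (f : ℕ → ℕ) (hf : ∀ i < N, f i < 2 ^ n) (j : ℕ) (hj : j < N) :
    pk n N f / 2 ^ (n * j) % 2 ^ n = f j := by
  obtain ⟨K, rfl⟩ : ∃ K, N = j + K := ⟨N - j, by omega⟩
  rw [pk_div n f (fun i hi => hf i (by omega))]
  obtain ⟨K', rfl⟩ : ∃ K', K = 1 + K' := ⟨K - 1, by omega⟩
  have := pk_mod n (N := 1) (K := K') (fun i => f (j + i)) (fun i hi => hf (j + i) (by omega))
  rw [mul_one] at this
  rw [this]
  simp [pk]

lemma pk_inj (n N : ℕ) (f g : ℕ → ℕ) (hf : ∀ i < N, f i < 2 ^ n) (hg : ∀ i < N, g i < 2 ^ n)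
    (h : pk n N f = pk n N g) : ∀ j < N, f j = g j := by
  intro j hj
  rw [← pk_dig n N f hf j hj, h, pk_dig n N g hg j hj]

/-- every number below `2^(nN)` is packed -/
lemma eq_pk (n N x : ℕ) (h : x < 2 ^ (n * N)) : x = pk n N (fun i => x / 2 ^ (n * i) % 2 ^ n) := by
  induction N generalizing x with
  | zero => simp at h; subst h; simp [pk]
  | succ N ih =>
    rw [pk_succ]
    have h1 := ih (x % 2 ^ (n * N)) (Nat.mod_lt _ (by positivity))
    have h2 : pk n N (fun i => x / 2 ^ (n * i) % 2 ^ n)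
        = pk n N (fun i => (x % 2 ^ (n * N)) / 2 ^ (n * i) % 2 ^ n) := by
      refine pk_congr n N (fun i hi => ?_)
      have e : 2 ^ (n * N) = 2 ^ (n * i) * 2 ^ (n * (N - i)) := by
        rw [← pow_add, ← mul_add]; congr 2; omega
      rw [e, Nat.mod_mul_right_div_self]
      have e2 : 2 ^ (n * (N - i)) = 2 ^ n * 2 ^ (n * (N - i - 1)) := by
        rw [← pow_add]; congr 1
        have : N - i = (N - i - 1) + 1 := by omega
        nth_rewrite 1 [this]; ring
      rw [e2, Nat.mod_mul_right_mod]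
    rw [h2, ← h1]
    have h3 : x / 2 ^ (n * N) < 2 ^ n := by
      rw [Nat.div_lt_iff_lt_mul (by positivity), ← pow_add]
      calc x < _ := h
        _ = _ := by congr 1; ring
    rw [Nat.mod_eq_of_lt h3]
    have := Nat.mod_add_div x (2 ^ (n * N))
    rw [mul_comm (x / 2 ^ (n * N))]
    exact this.symm

/-- `land` of numbers cut at bit `n` -/
lemma land_split (n a b c d : ℕ) (ha : a < 2 ^ n) (hc : c < 2 ^ n) :
    (a + 2 ^ n * b) &&& (c + 2 ^ n * d) = (a &&& c) + 2 ^ n * (b &&& d) := by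
  have hac : a &&& c < 2 ^ n := lt_of_le_of_lt Nat.and_le_left ha
  apply Nat.eq_of_testBit_eq
  intro i
  rw [Nat.testBit_and, add_comm a, add_comm c, add_comm (a &&& c), Nat.testBit_two_pow_mul_add _ ha,
    Nat.testBit_two_pow_mul_add _ hc, Nat.testBit_two_pow_mul_add _ hac]
  split_ifs
  · rw [Nat.testBit_and]
  · rw [Nat.testBit_and]

lemma pk_land (n k Q : ℕ) (hk : k ≤ n) (w : ℕ → ℕ) (hw : ∀ q < Q, w q < 2 ^ n) :
    (pk n Q w) &&& (pk n Q (fun _ => 2 ^ k - 1)) = pk n Q (fun q => w q % 2 ^ k) := by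
  induction Q with
  | zero => simp [pk]
  | succ Q ih =>
    rw [pk_succ, pk_succ, pk_succ, mul_comm (w Q), mul_comm (2 ^ k - 1), mul_comm (w Q % 2 ^ k)]
    have hm : ∀ q < Q, (fun _ : ℕ => 2 ^ k - 1) q < 2 ^ n := by
      intro q _
      have : 2 ^ k ≤ 2 ^ n := Nat.pow_le_pow_right (by norm_num) hk
      have := Nat.one_le_two_pow (n := k)
      simp only
      omega
    rw [land_split (n * Q) _ _ _ _ (pk_lt n Q w (fun q hq => hw q (by omega))) (pk_lt n Q _ hm)]
    rw [ih (fun q hq => hw q (by omega)), Nat.and_two_pow_sub_one_eq_mod]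

/-- geometric sums -/
lemma pk_const (n Q c : ℕ) (hn : 1 ≤ n) :
    pk n Q (fun _ => c) = c * ((2 ^ (n * Q) - 1) / (2 ^ n - 1)) := by
  have h2 : 2 ≤ 2 ^ n := by
    calc 2 = 2 ^ 1 := by norm_num
      _ ≤ 2 ^ n := Nat.pow_le_pow_right (by norm_num) hn
  have hg : (∑ i ∈ range Q, 2 ^ (n * i)) * (2 ^ n - 1) = 2 ^ (n * Q) - 1 := by
    have := Nat.geomSum_eq h2 Q
    have e : ∑ i ∈ range Q, 2 ^ (n * i) = ∑ i ∈ range Q, (2 ^ n) ^ i := by
      refine sum_congr rfl (fun i _ => by rw [pow_mul])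
    rw [e, this, ← pow_mul]
    apply Nat.div_mul_cancel
    rw [pow_mul]
    simpa using Nat.sub_dvd_pow_sub_pow (2 ^ n) 1 Q
  unfold pk
  rw [← mul_sum]
  congr 1
  rw [← hg, Nat.mul_div_cancel _ (by omega)]

end H5KL
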